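import Pool.Agent.Y648.CS.StmS

set_option autoImplicit false

/-! The counting lemma. -/

namespace Pool.Agent.Y721.CS

open Finset Pool.Agent.Y648.CS

theorem card_real (A : Finset ℕ) (L : ℝ) (hL : 0 ≤ L)
    (h : ∀ k ∈ A, ∀ k' ∈ A, k < k' → (k' : ℝ) ≤ k + L) : (A.card : ℝ) ≤ L + 1 := by
  rcases A.eq_empty_or_nonempty with rfl | hne
  · simp; linarith
  · have hsub : A ⊆ Finset.Icc (A.min' hne) (A.min' hne + ⌊L⌋₊) := by
      intro k hk
      rw [Finset.mem_Icc]
      refine ⟨A.min'_le k hk, ?_⟩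
      rcases (A.min'_le k hk).eq_or_lt with h1 | h1
      · omega
      · have h2 := h _ (A.min'_mem hne) k hk h1
        have h3 : k - A.min' hne ≤ ⌊L⌋₊ := by
          apply Nat.le_floor
          rw [Nat.cast_sub h1.le]
          linarith
        omega
    have h1 := Finset.card_le_card hsub
    rw [Nat.card_Icc] at h1
    have h2 : A.card ≤ ⌊L⌋₊ + 1 := by omega
    have h3 : (A.card : ℝ) ≤ (⌊L⌋₊ : ℝ) + 1 := by exact_mod_cast h2
    have h4 := Nat.floor_le hL
    linarith

/-- a decreasing sequence -/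
theorem dec_seq {M : ℕ} {y : ℕ → ℝ} (h : ∀ k < M, y (k + 1) ≤ y k - 1) (k : ℕ) :
    ∀ m : ℕ, k + m ≤ M → y (k + m) ≤ y k - m := by
  intro m
  induction m with
  | zero => intro _; simp
  | succ m ih =>
    intro hm
    have h1 := ih (by omega)
    have h2 := h (k + m) (by omega)
    have e : k + (m + 1) = k + m + 1 := rfl
    rw [e]
    push_cast
    linarith

theorem dec_le {M : ℕ} {y : ℕ → ℝ} (h : ∀ k < M, y (k + 1) ≤ y k - 1) {k k' : ℕ} (hk : k ≤ k')
    (hk' : k' ≤ M) : y k' ≤ y k - ((k' : ℝ) - k) := by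
  obtain ⟨m, rfl⟩ := Nat.exists_eq_add_of_le hk
  have := dec_seq h k m hk'
  push_cast
  linarith

/-- crossing points of lines -/
theorem cross_pt {vr vr' y y₁ R : ℝ} {r r' : ℕ} (hne : r ≠ r')
    (h : |(vr + r * (y - y₁)) - (vr' + r' * (y - y₁))| ≤ R) :
    |y - (y₁ + (vr' - vr) / ((r : ℝ) - r'))| ≤ R := by
  have hd : (r : ℝ) - r' ≠ 0 := by
    intro h0
    apply hne
    exact_mod_cast sub_eq_zero.1 h0
  have h1 : (1 : ℝ) ≤ |(r : ℝ) - r'| := by
    have h2 : (1 : ℤ) ≤ |(r : ℤ) - r'| := by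
      apply Int.one_le_abs
      intro h0
      apply hne
      omega
    exact_mod_cast h2
  have e : (vr + r * (y - y₁)) - (vr' + r' * (y - y₁)) =
      ((r : ℝ) - r') * (y - (y₁ + (vr' - vr) / ((r : ℝ) - r'))) := by
    field_simp
    ring
  rw [e, abs_mul] at h
  calc |y - (y₁ + (vr' - vr) / ((r : ℝ) - r'))|
      = 1 * |y - (y₁ + (vr' - vr) / ((r : ℝ) - r'))| := (one_mul _).symm
    _ ≤ |(r : ℝ) - r'| * |y - (y₁ + (vr' - vr) / ((r : ℝ) - r'))| := by gcongr
    _ ≤ R := h

/-- the number of `true` members after an exchange -/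
theorem card_exch (σ : ℕ → Bool) (S : Finset ℕ) (e e' : ℕ) (he : e ∈ S) (he' : e' ∉ S) :
    ((insert e' (S.erase e)).filter (fun x => σ x = true)).card + (if σ e = true then 1 else 0) =
      (S.filter (fun x => σ x = true)).card + (if σ e' = true then 1 else 0) := by
  have h1 : S = insert e (S.erase e) := (Finset.insert_erase he).symm
  have h2 : e' ∉ S.erase e := fun h => he' (Finset.mem_of_mem_erase h)
  have h3 : e ∉ S.erase e := Finset.notMem_erase e S
  conv_rhs => rw [h1]
  rw [Finset.filter_insert, Finset.filter_insert]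
  have h4 : e' ∉ (S.erase e).filter (fun x => σ x = true) := fun h => h2 (Finset.mem_filter.1 h).1
  have h5 : e ∉ (S.erase e).filter (fun x => σ x = true) := fun h => h3 (Finset.mem_filter.1 h).1
  split_ifs
  · rw [Finset.card_insert_of_notMem h4, Finset.card_insert_of_notMem h5]
  · rw [Finset.card_insert_of_notMem h4]
  · rw [Finset.card_insert_of_notMem h5]
  · rfl

/-- one step -/
theorem step_claim {ι : Type} {Bs : Finset ι} {ld : ι → ℝ} {S : ι → Finset ℕ} {Ac : Finset ℕ}
    {N : ℕ} {F : ℕ → ℝ → ℝ} {C D c₁ yk yk' y₁ y₂ : ℝ} {om : ℕ → ℝ} {b : ι} {σ : ℕ → Bool}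
    {rr : ι → ℕ} {v : ℕ → ℝ}
    (hC : 0 ≤ C) (hD : 0 ≤ D) (hc : 0 ≤ c₁)
    (hS : ∀ a ∈ Bs, S a ⊆ Ac ∧ (S a).card ≤ N)
    (hrr : ∀ a, rr a = ((S a).filter (fun x => σ x = true)).card)
    (hF : ∀ e ∈ Ac, ∀ y, y₁ ≤ y → y ≤ y₂ → F e y = F e y₁ + if σ e then y - y₁ else 0)
    (hv1 : ∀ a ∈ Bs, ld a + ∑ e ∈ S a, F e y₁ ≤ v (rr a))
    (hv2 : ∀ r, (∃ a ∈ Bs, rr a = r) → ∃ a ∈ Bs, rr a = r ∧ ld a + ∑ e ∈ S a, F e y₁ = v r)
    (h1 : y₁ ≤ yk') (h2 : yk' ≤ yk) (h3 : yk ≤ y₂)
    (hb : b ∈ Bs) (hom : ∀ e ∈ Ac, F e yk ≤ om e ∧ om e ≤ F e yk + C)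
    (hmax : ∀ a ∈ Bs, ld a + ∑ e ∈ S a, om e ≤ ld b + ∑ e ∈ S b, om e + D)
    (hex : ∃ a ∈ Bs, ∃ e ∈ S b, ∃ e' ∈ Ac, e' ∉ S b ∧ S a = insert e' ((S b).erase e) ∧
      σ e ≠ σ e' ∧ (ld b + ∑ f ∈ S b, om f - c₁ ≤ ld a + ∑ f ∈ S a, om f ∨
        (σ e = true ∧ σ e' = false ∧ ld b + ∑ f ∈ S b, om f - c₁ - (yk - yk') ≤
          ld a + ∑ f ∈ S a, om f))) :
    ∃ r r' : ℕ, r ≤ N ∧ r' ≤ N ∧ yk' - (2 * N * C + D + c₁) ≤
      y₁ + (v r' - v r) / ((r : ℝ) - r') ∧
      y₁ + (v r' - v r) / ((r : ℝ) - r') ≤ yk + (2 * N * C + D + c₁) := by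
  -- the functions `Φ`
  set Φ : ι → ℝ → ℝ := fun a y => ld a + ∑ e ∈ S a, F e y with hΦ
  have hlin : ∀ a ∈ Bs, ∀ y, y₁ ≤ y → y ≤ y₂ → Φ a y = Φ a y₁ + rr a * (y - y₁) := by
    intro a ha y hy1 hy2
    simp only [hΦ]
    have e1 : ∑ e ∈ S a, F e y = ∑ e ∈ S a, (F e y₁ + if σ e then y - y₁ else 0) :=
      Finset.sum_congr rfl fun e he => hF e ((hS a ha).1 he) y hy1 hy2
    rw [e1, Finset.sum_add_distrib, ← Finset.sum_filter, Finset.sum_const, hrr a, nsmul_eq_mul]
    ring
  have hNC : 0 ≤ (N : ℝ) * C := by positivity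
  have hvol1 : ∀ a ∈ Bs, Φ a yk ≤ ld a + ∑ e ∈ S a, om e := by
    intro a ha
    simp only [hΦ]
    gcongr with e he
    exact (hom e ((hS a ha).1 he)).1
  have hvol2 : ∀ a ∈ Bs, ld a + ∑ e ∈ S a, om e ≤ Φ a yk + N * C := by
    intro a ha
    simp only [hΦ]
    have e1 : ∑ e ∈ S a, om e ≤ ∑ e ∈ S a, (F e yk + C) :=
      Finset.sum_le_sum fun e he => (hom e ((hS a ha).1 he)).2
    rw [Finset.sum_add_distrib, Finset.sum_const, nsmul_eq_mul] at e1
    have e2 : ((S a).card : ℝ) * C ≤ N * C := by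
      have : ((S a).card : ℝ) ≤ N := by exact_mod_cast (hS a ha).2
      gcongr
    linarith
  have hC0 : ∀ a ∈ Bs, Φ a yk ≤ Φ b yk + (N * C + D) := by
    intro a ha
    have := hvol1 a ha
    have := hmax a ha
    have := hvol2 b hb
    linarith
  have hrN : ∀ a ∈ Bs, rr a ≤ N := by
    intro a ha
    rw [hrr a]
    exact (Finset.card_filter_le _ _).trans (hS a ha).2
  -- `V r y = v r + r (y - y₁)`
  have hV1 : ∀ a ∈ Bs, ∀ y, y₁ ≤ y → y ≤ y₂ → Φ a y ≤ v (rr a) + rr a * (y - y₁) := by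
    intro a ha y hy1 hy2
    rw [hlin a ha y hy1 hy2]
    have := hv1 a ha
    simp only [hΦ]
    linarith
  have hV2 : ∀ a ∈ Bs, ∀ y, y₁ ≤ y → y ≤ y₂ → ∃ a' ∈ Bs, rr a' = rr a ∧
      Φ a' y = v (rr a) + rr a * (y - y₁) := by
    intro a ha y hy1 hy2
    obtain ⟨a', ha', hr', hv'⟩ := hv2 (rr a) ⟨a, ha, rfl⟩
    refine ⟨a', ha', hr', ?_⟩
    rw [hlin a' ha' y hy1 hy2, hr']
    simp only [hΦ]
    rw [hv']
  have hyk1 : y₁ ≤ yk := h1.trans h2
  have hyk'2 : yk' ≤ y₂ := h2.trans h3
  -- the value `V r yk ≤ Φ b yk + C0`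
  have hVk : ∀ a ∈ Bs, v (rr a) + rr a * (yk - y₁) ≤ Φ b yk + (N * C + D) := by
    intro a ha
    obtain ⟨a', ha', _, hv'⟩ := hV2 a ha yk hyk1 h3
    rw [← hv']
    exact hC0 a' ha'
  obtain ⟨a, ha, e, he, e', he', heS, hSa, hσ, hcase⟩ := hex
  have hra := card_exch σ (S b) e e' he heS
  rw [← hSa, ← hrr a, ← hrr b] at hra
  have hne : rr b ≠ rr a := by
    intro h
    rw [h] at hra
    have h5 : (if σ e = true then 1 else 0) = (if σ e' = true then (1:ℕ) else 0) := by omega
    apply hσ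
    cases h6 : σ e <;> cases h7 : σ e' <;> simp [h6, h7] at h5 ⊢
  rcases hcase with hcase | ⟨hσe, hσe', hcase⟩
  · -- first case
    refine ⟨rr b, rr a, hrN b hb, hrN a ha, ?_⟩
    have k1 := hV1 a ha yk hyk1 h3
    have k2 := hV1 b hb yk hyk1 h3
    have k3 := hVk a ha
    have k4 := hVk b hb
    have k5 := hvol2 a ha
    have k6 := hvol1 b hb
    have k7 : |(v (rr b) + rr b * (yk - y₁)) - (v (rr a) + rr a * (yk - y₁))| ≤
        2 * N * C + D + c₁ := by
      rw [abs_le]
      constructor <;> linarith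
    have k8 := abs_le.1 (cross_pt hne k7)
    constructor <;> linarith
  · -- second case
    have hr1 : rr b = rr a + 1 := by
      rw [if_pos hσe, if_neg (by simp [hσe'])] at hra
      omega
    have hdiff : ∀ a' ∈ Bs, Φ a' yk' - Φ b yk' = Φ a' yk - Φ b yk +
        ((rr b : ℝ) - rr a') * (yk - yk') := by
      intro a' ha'
      rw [hlin a' ha' yk' h1 hyk'2, hlin b hb yk' h1 hyk'2, hlin a' ha' yk hyk1 h3,
        hlin b hb yk hyk1 h3]
      ring
    have hlow : -c₁ - N * C ≤ Φ a yk' - Φ b yk' := by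
      rw [hdiff a ha, hr1]
      push_cast
      have k5 := hvol2 a ha
      have k6 := hvol1 b hb
      linarith
    have hVb : v (rr b) + rr b * (yk' - y₁) ≤ Φ b yk' + (N * C + D) := by
      have k1 := hVk b hb
      have k2 := hdiff b hb
      have k3 := hlin b hb yk' h1 hyk'2
      have k4 := hlin b hb yk hyk1 h3
      have e1 : (rr b : ℝ) * (yk - y₁) = rr b * (yk' - y₁) + rr b * (yk - yk') := by ring
      linarith
    by_cases hall : ∀ a'' ∈ Bs, Φ a'' yk' ≤ Φ b yk' + (N * C + D)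
    · refine ⟨rr b, rr a, hrN b hb, hrN a ha, ?_⟩
      have k1 := hV1 a ha yk' h1 hyk'2
      have k2 := hV1 b hb yk' h1 hyk'2
      obtain ⟨a', ha', _, k3⟩ := hV2 a ha yk' h1 hyk'2
      have k4 := hall a' ha'
      have k7 : |(v (rr b) + rr b * (yk' - y₁)) - (v (rr a) + rr a * (yk' - y₁))| ≤
          2 * N * C + D + c₁ := by
        rw [abs_le]
        constructor <;> linarith
      have k8 := abs_le.1 (cross_pt hne k7)
      constructor <;> linarith
    · push Not at hall
      obtain ⟨a'', ha'', hgt⟩ := hall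
      have hlt : rr a'' < rr b := by
        by_contra hge
        push Not at hge
        have k1 := hdiff a'' ha''
        have k2 := hC0 a'' ha''
        have k3 : ((rr b : ℝ) - rr a'') * (yk - yk') ≤ 0 := by
          apply mul_nonpos_of_nonpos_of_nonneg
          · have : (rr b : ℝ) ≤ rr a'' := by exact_mod_cast hge
            linarith
          · linarith
        linarith
      refine ⟨rr b, rr a'', hrN b hb, hrN a'' ha'', ?_⟩
      have hd : (1 : ℝ) ≤ (rr b : ℝ) - rr a'' := by
        have : (rr a'' : ℝ) + 1 ≤ rr b := by exact_mod_cast hlt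
        linarith
      set p : ℝ := y₁ + (v (rr a'') - v (rr b)) / ((rr b : ℝ) - rr a'') with hp
      have hpf : ∀ y : ℝ, (v (rr a'') + rr a'' * (y - y₁)) - (v (rr b) + rr b * (y - y₁)) =
          ((rr b : ℝ) - rr a'') * (p - y) := by
        intro y
        rw [hp]
        have : (rr b : ℝ) - rr a'' ≠ 0 := by linarith
        field_simp
        ring
      have k1 := hpf yk'
      have k2 := hpf yk
      have k3 := hV1 a'' ha'' yk' h1 hyk'2
      have k4 : 0 < ((rr b : ℝ) - rr a'') * (p - yk') := by linarith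
      have k5 : 0 < p - yk' := by
        by_contra hneg
        push Not at hneg
        have : ((rr b : ℝ) - rr a'') * (p - yk') ≤ 0 :=
          mul_nonpos_of_nonneg_of_nonpos (by linarith) hneg
        linarith
      have k6 : ((rr b : ℝ) - rr a'') * (p - yk) ≤ N * C + D := by
        have k7 := hVk a'' ha''
        have k8 := hV1 b hb yk hyk1 h3
        linarith
      have k9 : p - yk ≤ N * C + D := by
        by_cases hpy : p ≤ yk
        · linarith
        · push Not at hpy
          have : 1 * (p - yk) ≤ ((rr b : ℝ) - rr a'') * (p - yk) := by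
            apply mul_le_mul_of_nonneg_right hd
            linarith
          linarith
      constructor <;> linarith

theorem t_CNT : S_CNT := by
  intro ι Bs ld S Ac q nu N Z F C D c₁ M y om b hC hD hc hS hK hstep
  set R : ℝ := 2 * N * C + D + c₁ with hR
  have hR0 : 0 ≤ R := by positivity
  have hdec : ∀ k < M, y (k + 1) ≤ y k - 1 := fun k hk => (hstep k hk).2.2.2.1
  -- bad steps
  set bad := (Finset.range M).filter (fun k => ∃ z ∈ Z, y (k + 1) ≤ z ∧ z ≤ y k) with hbad
  set good := (Finset.range M).filter (fun k => ¬ ∃ z ∈ Z, y (k + 1) ≤ z ∧ z ≤ y k) with hgood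
  have hcard : (M : ℝ) = bad.card + good.card := by
    have := Finset.card_filter_add_card_filter_not (s := Finset.range M)
      (fun k => ∃ z ∈ Z, y (k + 1) ≤ z ∧ z ≤ y k)
    rw [Finset.card_range] at this
    exact_mod_cast this.symm
  have hbadc : (bad.card : ℝ) ≤ 2 * Z.card := by
    have h1 : bad ⊆ Z.biUnion (fun z => (Finset.range M).filter
        (fun k => y (k + 1) ≤ z ∧ z ≤ y k)) := by
      intro k hk
      rw [hbad, Finset.mem_filter] at hk
      obtain ⟨hk, z, hz, h⟩ := hk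
      rw [Finset.mem_biUnion]
      exact ⟨z, hz, Finset.mem_filter.2 ⟨hk, h⟩⟩
    have h2 := (Finset.card_le_card h1).trans Finset.card_biUnion_le
    have h3 : (bad.card : ℝ) ≤ ∑ z ∈ Z, (((Finset.range M).filter
        (fun k => y (k + 1) ≤ z ∧ z ≤ y k)).card : ℝ) := by exact_mod_cast h2
    refine h3.trans ?_
    have h4 : ∀ z ∈ Z, (((Finset.range M).filter
        (fun k => y (k + 1) ≤ z ∧ z ≤ y k)).card : ℝ) ≤ 1 + 1 := by
      intro z _
      apply card_real _ _ zero_le_one
      intro k hk k' hk' hkk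
      rw [Finset.mem_filter, Finset.mem_range] at hk hk'
      have := dec_le hdec (show k + 1 ≤ k' by omega) hk'.1.le
      push_cast at this
      linarith [hk.2.1, hk'.2.2]
    calc ∑ z ∈ Z, (((Finset.range M).filter
        (fun k => y (k + 1) ≤ z ∧ z ≤ y k)).card : ℝ) ≤ ∑ z ∈ Z, (1 + 1 : ℝ) :=
          Finset.sum_le_sum h4
      _ = 2 * Z.card := by rw [Finset.sum_const, nsmul_eq_mul]; ring
  -- good steps, classes
  set cl : ℕ → Finset ℕ := fun g => good.filter
    (fun k => (Z.filter (fun z => z < y (k + 1))).card = g) with hcl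
  have hfib : good.card = ∑ g ∈ Finset.range (Z.card + 1), (cl g).card := by
    apply Finset.card_eq_sum_card_fiberwise
    intro k _
    rw [Finset.mem_coe, Finset.mem_range]
    exact Nat.lt_succ_of_le (Finset.card_filter_le Z (fun z => z < y (k + 1)))
  have hclass : ∀ g, ((cl g).card : ℝ) ≤ (N + 1) ^ 2 * (2 * R + 2) := by
    intro g
    rcases (cl g).eq_empty_or_nonempty with he | hne
    · rw [he]
      simp only [Finset.card_empty, Nat.cast_zero]
      positivity
    · set ka := (cl g).min' hne with hka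
      set kb := (cl g).max' hne with hkb
      have hmem : ∀ k ∈ cl g, k < M ∧ (¬ ∃ z ∈ Z, y (k + 1) ≤ z ∧ z ≤ y k) ∧
          (Z.filter (fun z => z < y (k + 1))).card = g := by
        intro k hk
        rw [hcl, Finset.mem_filter, hgood, Finset.mem_filter, Finset.mem_range] at hk
        exact ⟨hk.1.1, hk.1.2, hk.2⟩
      have hA := hmem ka ((cl g).min'_mem hne)
      have hBm := hmem kb ((cl g).max'_mem hne)
      have hab : ka ≤ kb := (cl g).min'_le _ ((cl g).max'_mem hne)
      have hyab : y (kb + 1) ≤ y (ka + 1) := by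
        have := dec_le hdec (show ka + 1 ≤ kb + 1 by omega) (show kb + 1 ≤ M by omega)
        push_cast at this
        have h5 : (ka : ℝ) ≤ kb := by exact_mod_cast hab
        linarith
      have hgap : ∀ z ∈ Z, z < y (kb + 1) ∨ y ka < z := by
        intro z hz
        by_contra hcon
        push Not at hcon
        have h5 : z < y (ka + 1) := by
          by_contra h6
          push Not at h6
          exact hA.2.1 ⟨z, hz, h6, hcon.2⟩
        have h6 : Z.filter (fun z => z < y (kb + 1)) ⊆ Z.filter (fun z => z < y (ka + 1)) := by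
          intro x hx
          rw [Finset.mem_filter] at hx ⊢
          exact ⟨hx.1, lt_of_lt_of_le hx.2 hyab⟩
        have h7 := Finset.eq_of_subset_of_card_le h6 (by rw [hA.2.2, hBm.2.2])
        have h8 : z ∈ Z.filter (fun z => z < y (ka + 1)) := Finset.mem_filter.2 ⟨hz, h5⟩
        rw [← h7, Finset.mem_filter] at h8
        linarith [h8.2, hcon.1]
      have hy12 : y (kb + 1) ≤ y ka := by
        have := hdec ka hA.1
        linarith
      obtain ⟨σ, hσnu, hσq, hF⟩ := hK (y (kb + 1)) (y ka) hy12 hgap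
      -- the lines
      set rr : ι → ℕ := fun a => ((S a).filter (fun x => σ x = true)).card with hrr
      have hvex : ∀ r : ℕ, ∃ v : ℝ, (∀ a ∈ Bs, rr a = r →
          ld a + ∑ e ∈ S a, F e (y (kb + 1)) ≤ v) ∧
          ((∃ a ∈ Bs, rr a = r) → ∃ a ∈ Bs, rr a = r ∧
            ld a + ∑ e ∈ S a, F e (y (kb + 1)) = v) := by
        intro r
        rcases (Bs.filter (fun a => rr a = r)).eq_empty_or_nonempty with h0 | h0
        · refine ⟨0, fun a ha har => ?_, fun ⟨a, ha, har⟩ => ?_⟩
          · have : a ∈ Bs.filter (fun a => rr a = r) := Finset.mem_filter.2 ⟨ha, har⟩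
            rw [h0] at this
            exact absurd this (Finset.notMem_empty a)
          · have : a ∈ Bs.filter (fun a => rr a = r) := Finset.mem_filter.2 ⟨ha, har⟩
            rw [h0] at this
            exact absurd this (Finset.notMem_empty a)
        · obtain ⟨a, ha, hamax⟩ := Finset.exists_max_image (Bs.filter (fun a => rr a = r))
            (fun a => ld a + ∑ e ∈ S a, F e (y (kb + 1))) h0
          rw [Finset.mem_filter] at ha
          exact ⟨_, fun a' ha' har' => hamax a' (Finset.mem_filter.2 ⟨ha', har'⟩),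
            fun _ => ⟨a, ha.1, ha.2, rfl⟩⟩
      choose v hv1 hv2 using hvex
      set p : ℕ × ℕ → ℝ := fun x => y (kb + 1) + (v x.2 - v x.1) / ((x.1 : ℝ) - x.2) with hp
      have hcov : cl g ⊆ (Finset.range (N + 1) ×ˢ Finset.range (N + 1)).biUnion
          (fun x => (cl g).filter (fun k => y (k + 1) - R ≤ p x ∧ p x ≤ y k + R)) := by
        intro k hk
        have hkm := hmem k hk
        have hka' : ka ≤ k := (cl g).min'_le k hk
        have hkb' : k ≤ kb := (cl g).le_max' k hk
        obtain ⟨g1, g2, g3, g4, g5⟩ := hstep k hkm.1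
        have i1 : y (kb + 1) ≤ y (k + 1) := by
          have := dec_le hdec (show k + 1 ≤ kb + 1 by omega) (show kb + 1 ≤ M by omega)
          push_cast at this
          have h5 : (k : ℝ) ≤ kb := by exact_mod_cast hkb'
          linarith
        have i2 : y k ≤ y ka := by
          have := dec_le hdec hka' hkm.1.le
          have h5 : (ka : ℝ) ≤ k := by exact_mod_cast hka'
          linarith
        obtain ⟨r, r', hr, hr', j1, j2⟩ := step_claim (y₁ := y (kb + 1)) (y₂ := y ka)
          (v := v) (rr := rr) (om := om k) hC hD hc hS (fun a => rfl) hF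
          (fun a ha => hv1 _ a ha rfl) (fun r h => hv2 r h) i1 (by linarith) i2 g1 g2 g3
          (g5 σ hσnu hσq)
        rw [Finset.mem_biUnion]
        refine ⟨(r, r'), ?_, Finset.mem_filter.2 ⟨hk, j1, j2⟩⟩
        rw [Finset.mem_product, Finset.mem_range, Finset.mem_range]
        exact ⟨by simp only; omega, by simp only; omega⟩
      have h2 := (Finset.card_le_card hcov).trans Finset.card_biUnion_le
      have h3 : ((cl g).card : ℝ) ≤ ∑ x ∈ Finset.range (N + 1) ×ˢ Finset.range (N + 1),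
          (((cl g).filter (fun k => y (k + 1) - R ≤ p x ∧ p x ≤ y k + R)).card : ℝ) := by
        exact_mod_cast h2
      refine h3.trans ?_
      have h4 : ∀ x ∈ Finset.range (N + 1) ×ˢ Finset.range (N + 1),
          (((cl g).filter (fun k => y (k + 1) - R ≤ p x ∧ p x ≤ y k + R)).card : ℝ) ≤
            (2 * R + 1) + 1 := by
        intro x _
        apply card_real _ _ (by linarith)
        intro k hk k' hk' hkk
        rw [Finset.mem_filter] at hk hk'
        have hkm' := hmem k' hk'.1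
        have := dec_le hdec (show k + 1 ≤ k' by omega) hkm'.1.le
        push_cast at this
        linarith [hk.2.1, hk'.2.2]
      calc ∑ x ∈ Finset.range (N + 1) ×ˢ Finset.range (N + 1),
          (((cl g).filter (fun k => y (k + 1) - R ≤ p x ∧ p x ≤ y k + R)).card : ℝ)
          ≤ ∑ x ∈ Finset.range (N + 1) ×ˢ Finset.range (N + 1), ((2 * R + 1) + 1) :=
            Finset.sum_le_sum h4
        _ = (N + 1) ^ 2 * (2 * R + 2) := by
            rw [Finset.sum_const, nsmul_eq_mul, Finset.card_product, Finset.card_range]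
            push_cast
            ring
  have hgoodc : (good.card : ℝ) ≤ (Z.card + 1) * ((N + 1) ^ 2 * (2 * R + 2)) := by
    rw [hfib]
    push_cast
    calc ∑ g ∈ Finset.range (Z.card + 1), ((cl g).card : ℝ)
        ≤ ∑ g ∈ Finset.range (Z.card + 1), (((N : ℝ) + 1) ^ 2 * (2 * R + 2)) :=
          Finset.sum_le_sum fun g _ => hclass g
      _ = (Z.card + 1) * ((N + 1) ^ 2 * (2 * R + 2)) := by
          rw [Finset.sum_const, nsmul_eq_mul, Finset.card_range]
          push_cast
          ring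
  have hfin : (Z.card + 1 : ℝ) * ((N + 1) ^ 2 * (2 * R + 2)) ≤
      (2 * Z.card + 1) * ((N + 1) ^ 2 * (2 * R + 2)) := by
    apply mul_le_mul_of_nonneg_right _ (by positivity)
    have : (0 : ℝ) ≤ Z.card := by positivity
    linarith
  rw [hcard]
  linarith

end Pool.Agent.Y721.CS
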