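import Pool.Agent.Y648.CS.StmS

set_option autoImplicit false

/-! Decomposition into elementary vectors, and the structure of the path. -/

namespace Pool.Agent.Y721.CS

open Finset Pool.Agent.Y648.CS

/-- The support on `X`. -/
noncomputable def sp (X : Finset ℕ) (x : ℕ → ℝ) : Finset ℕ := X.filter (fun c => x c ≠ 0)

theorem mem_sp {X : Finset ℕ} {x : ℕ → ℝ} {c : ℕ} : c ∈ sp X x ↔ c ∈ X ∧ x c ≠ 0 := by
  simp [sp]

/-- Subtracting a multiple of `z` from `x`. -/
theorem sub_mult {Ls : Submodule ℝ (ℕ → ℝ)} {X : Finset ℕ} {x z : ℕ → ℝ} (hx : x ∈ Ls)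
    (hz : z ∈ Ls) (hx0 : ∀ c ∈ X, 0 ≤ x c) (hsup : ∀ c ∈ X, x c = 0 → z c = 0)
    (hpos : ∃ c ∈ X, 0 < z c) :
    ∃ s : ℝ, 0 < s ∧ x - s • z ∈ Ls ∧ (∀ c ∈ X, 0 ≤ (x - s • z) c) ∧
      (sp X (x - s • z)).card < (sp X x).card := by
  obtain ⟨c0, hc0, hc0z⟩ := hpos
  have hne : (X.filter (fun c => 0 < z c)).Nonempty := ⟨c0, Finset.mem_filter.2 ⟨hc0, hc0z⟩⟩
  obtain ⟨m, hm, hmin⟩ := Finset.exists_min_image (X.filter (fun c => 0 < z c))
    (fun c => x c / z c) hne
  rw [Finset.mem_filter] at hm
  have hxm : 0 < x m := by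
    rcases (hx0 m hm.1).eq_or_lt with h | h
    · have := hsup m hm.1 h.symm
      linarith [hm.2]
    · exact h
  have hs : 0 < x m / z m := div_pos hxm hm.2
  have hmval : (x - (x m / z m) • z) m = 0 := by
    show x m - (x m / z m) * z m = 0
    rw [div_mul_cancel₀ _ hm.2.ne', sub_self]
  refine ⟨x m / z m, hs, Ls.sub_mem hx (Ls.smul_mem _ hz), fun c hc => ?_, ?_⟩
  · show 0 ≤ x c - (x m / z m) * z c
    by_cases hzc : 0 < z c
    · have h1 := hmin c (Finset.mem_filter.2 ⟨hc, hzc⟩)
      have h2 : (x m / z m) * z c ≤ (x c / z c) * z c := by gcongr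
      rw [div_mul_cancel₀ _ hzc.ne'] at h2
      linarith
    · push Not at hzc
      have h1 : (x m / z m) * z c ≤ 0 := mul_nonpos_of_nonneg_of_nonpos hs.le hzc
      have := hx0 c hc
      linarith
  · apply Finset.card_lt_card
    rw [Finset.ssubset_iff_of_subset]
    · refine ⟨m, mem_sp.2 ⟨hm.1, hxm.ne'⟩, fun h => ?_⟩
      exact (mem_sp.1 h).2 hmval
    · intro c hc
      rw [mem_sp] at hc ⊢
      refine ⟨hc.1, fun h => hc.2 ?_⟩
      show x c - (x m / z m) * z c = 0
      rw [h, hsup c hc.1 h]
      ring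

/-- A nonzero nonnegative vector contains an elementary vector. -/
theorem exists_el {Ls : Submodule ℝ (ℕ → ℝ)} {X : Finset ℕ} {q nu : ℕ} {x : ℕ → ℝ}
    (hS : SpC Ls X q nu) (hx : x ∈ Ls) (hx0 : ∀ c ∈ X, 0 ≤ x c) (hne : (sp X x).Nonempty) :
    ∃ v, ElV Ls X nu v ∧ ∀ c ∈ X, x c = 0 → v c = 0 := by
  obtain ⟨s1, s2, s3, s4, s5⟩ := hS
  have hex : ∃ k : ℕ, ∃ z ∈ Ls, (∀ c ∈ X, 0 ≤ z c) ∧ (∀ c ∈ X, x c = 0 → z c = 0) ∧
      (sp X z).Nonempty ∧ (sp X z).card = k := ⟨_, x, hx, hx0, fun _ _ h => h, hne, rfl⟩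
  classical
  obtain ⟨z, hz, hz0, hzx, hzne, hzc⟩ := Nat.find_spec hex
  have hmin : ∀ u ∈ Ls, (∀ c ∈ X, 0 ≤ u c) → (∀ c ∈ X, z c = 0 → u c = 0) →
      (sp X u).card < (sp X z).card → ∀ c ∈ X, u c = 0 := by
    intro u hu hu0 huz hcard
    by_contra hcon
    push Not at hcon
    obtain ⟨c, hc, hcu⟩ := hcon
    have : (sp X u).card < Nat.find hex := by rw [← hzc]; exact hcard
    exact Nat.find_min hex this ⟨u, hu, hu0, fun c hc h => huz c hc (hzx c hc h),
      ⟨c, mem_sp.2 ⟨hc, hcu⟩⟩, rfl⟩
  have hznu : 0 < z nu := by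
    rw [s4 z hz]
    obtain ⟨c, hc⟩ := hzne
    rw [mem_sp] at hc
    exact Finset.sum_pos' hz0 ⟨c, hc.1, lt_of_le_of_ne (hz0 c hc.1) (Ne.symm hc.2)⟩
  -- proportionality
  have key : ∀ u ∈ Ls, (∀ c ∈ X, z c = 0 → u c = 0) → (∃ c ∈ X, 0 < u c) →
      ∃ l : ℝ, ∀ c ∈ X, u c = l * z c := by
    intro u hu huz hpos
    obtain ⟨s, hs, h1, h2, h3⟩ := sub_mult hz hu hz0 huz hpos
    have h4 := hmin _ h1 h2 (fun c hc h => by
      show z c - s * u c = 0
      rw [h, huz c hc h]; ring) h3
    refine ⟨s⁻¹, fun c hc => ?_⟩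
    have h5 : z c - s * u c = 0 := h4 c hc
    have h6 : z c = s * u c := by linarith
    rw [h6]
    field_simp
  refine ⟨(z nu)⁻¹ • z, ⟨Ls.smul_mem _ hz, fun c hc => ?_, ?_, ?_⟩, fun c hc h => ?_⟩
  · exact mul_nonneg (by positivity) (hz0 c hc)
  · show (z nu)⁻¹ * z nu = 1
    field_simp
  · intro u hu huz
    have huz' : ∀ c ∈ X, z c = 0 → u c = 0 := by
      intro c hc h
      apply huz c hc
      show (z nu)⁻¹ * z c = 0
      rw [h, mul_zero]
    have hred : (∃ l : ℝ, ∀ c ∈ X, u c = l * z c) → ∃ l : ℝ, ∀ c ∈ X,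
        u c = l * ((z nu)⁻¹ • z) c := by
      rintro ⟨l, hl⟩
      refine ⟨l * z nu, fun c hc => ?_⟩
      show u c = l * z nu * ((z nu)⁻¹ * z c)
      rw [hl c hc]
      field_simp
    apply hred
    by_cases hp : ∃ c ∈ X, 0 < u c
    · exact key u hu huz' hp
    · by_cases hn : ∃ c ∈ X, u c < 0
      · obtain ⟨l, hl⟩ := key (-u) (Ls.neg_mem hu)
          (fun c hc h => by show -u c = 0; rw [huz' c hc h, neg_zero])
          (by
            obtain ⟨c, hc, h⟩ := hn
            exact ⟨c, hc, by show 0 < -u c; linarith⟩)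
        refine ⟨-l, fun c hc => ?_⟩
        have h5 : -u c = l * z c := hl c hc
        linarith
      · push Not at hp hn
        refine ⟨0, fun c hc => ?_⟩
        rw [zero_mul]
        exact le_antisymm (hp c hc) (hn c hc)
  · show (z nu)⁻¹ * z c = 0
    rw [hzx c hc h, mul_zero]

theorem deco_aux {Ls : Submodule ℝ (ℕ → ℝ)} {X : Finset ℕ} {q nu : ℕ}
    (hS : SpC Ls X q nu) (n : ℕ) : ∀ x ∈ Ls, (∀ c ∈ X, 0 ≤ x c) → (sp X x).card ≤ n →
    ∃ (v : ℕ → ℕ → ℝ) (l : ℕ → ℝ), (∀ i, v i ∈ Ls) ∧
      (∀ i < n, 0 ≤ l i ∧ (l i ≠ 0 → ElV Ls X nu (v i))) ∧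
      (∀ c ∈ X, x c = ∑ i ∈ Finset.range n, l i * v i c) := by
  induction n with
  | zero =>
    intro x hx hx0 hc
    refine ⟨fun _ => 0, fun _ => 0, fun _ => Ls.zero_mem, fun i hi => by omega, fun c hcX => ?_⟩
    rw [Finset.range_zero, Finset.sum_empty]
    by_contra hne
    have : c ∈ sp X x := mem_sp.2 ⟨hcX, hne⟩
    have := Finset.card_pos.2 ⟨c, this⟩
    omega
  | succ n ih =>
    intro x hx hx0 hc
    by_cases hne : (sp X x).Nonempty
    · obtain ⟨v, hv, hvx⟩ := exists_el hS hx hx0 hne
      have hpos : ∃ c ∈ X, 0 < v c := by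
        by_contra hcon
        push Not at hcon
        have h1 : v nu = 0 := by
          rw [hS.2.2.2.1 v hv.1]
          exact Finset.sum_eq_zero fun c hc => le_antisymm (hcon c hc) (hv.2.1 c hc)
        rw [hv.2.2.1] at h1
        exact one_ne_zero h1
      obtain ⟨s, hs, h1, h2, h3⟩ := sub_mult hx hv.1 hx0 hvx hpos
      obtain ⟨v', l', hL, hl, hsum⟩ := ih _ h1 h2 (by omega)
      refine ⟨fun i => if i = n then v else v' i, fun i => if i = n then s else l' i,
        fun i => ?_, fun i hi => ?_, fun c hcX => ?_⟩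
      · by_cases h : i = n
        · simp only [h, if_true]; exact hv.1
        · simp only [h, if_false]; exact hL i
      · by_cases h : i = n
        · simp only [h, if_true]; exact ⟨hs.le, fun _ => hv⟩
        · simp only [h, if_false]; exact hl i (by omega)
      · rw [Finset.sum_range_succ]
        simp only [if_true]
        have h4 : ∑ i ∈ Finset.range n, (if i = n then s else l' i) *
            (if i = n then v else v' i) c = ∑ i ∈ Finset.range n, l' i * v' i c := by
          refine Finset.sum_congr rfl fun i hi => ?_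
          have : i ≠ n := by
            have := Finset.mem_range.1 hi
            omega
          simp only [this, if_false]
        rw [h4, ← hsum c hcX]
        show x c = x c - s * v c + s * v c
        ring
    · obtain ⟨v', l', hL, hl, hsum⟩ := ih x hx hx0 (by
        rw [Finset.not_nonempty_iff_eq_empty] at hne
        rw [hne]; simp)
      refine ⟨v', fun i => if i = n then 0 else l' i, hL, fun i hi => ?_, fun c hcX => ?_⟩
      · by_cases h : i = n
        · simp [h]
        · simp only [h, if_false]; exact hl i (by omega)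
      · rw [Finset.sum_range_succ]
        simp only [if_true, zero_mul, add_zero]
        rw [hsum c hcX]
        refine Finset.sum_congr rfl fun i hi => ?_
        have : i ≠ n := by
          have := Finset.mem_range.1 hi
          omega
        simp only [this, if_false]

theorem t_DECO : S_DECO := by
  intro Ls X q nu x hS hx hx0
  obtain ⟨v, l, hL, hl, hsum⟩ := deco_aux hS X.card x hx hx0 (Finset.card_filter_le _ _)
  obtain ⟨s1, s2, s3, s4, s5⟩ := hS
  refine ⟨v, l, hl, hsum, ?_, ?_⟩
  · rw [s4 x hx]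
    calc ∑ c ∈ X, x c = ∑ c ∈ X, ∑ i ∈ Finset.range X.card, l i * v i c :=
          Finset.sum_congr rfl hsum
      _ = ∑ i ∈ Finset.range X.card, ∑ c ∈ X, l i * v i c := Finset.sum_comm
      _ = ∑ i ∈ Finset.range X.card, l i := by
          refine Finset.sum_congr rfl fun i hi => ?_
          rw [← Finset.mul_sum, ← s4 (v i) (hL i)]
          by_cases h : l i = 0
          · rw [h, zero_mul]
          · rw [((hl i (Finset.mem_range.1 hi)).2 h).2.2.1, mul_one]
  · have h1 : x - ∑ i ∈ Finset.range X.card, l i • v i ∈ Ls :=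
      Ls.sub_mem hx (Ls.sum_mem fun i _ => Ls.smul_mem _ (hL i))
    have h2 := s5 _ h1 (fun c hc => by
      rw [Pi.sub_apply, Finset.sum_apply, sub_eq_zero, hsum c hc]
      rfl)
    rw [Pi.sub_apply, Finset.sum_apply, sub_eq_zero] at h2
    rw [h2]
    rfl

/-! ### piecewise linear functions -/

/-- a piece -/
noncomputable def pc (k : ℝ × Option ℝ) (y : ℝ) : ℝ :=
  match k.2 with
  | none => k.1
  | some d => min k.1 (y + d)

/-- the maximum of the pieces -/
noncomputable def mx (P : Finset (ℝ × Option ℝ)) (y : ℝ) : ℝ :=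
  if h : P.Nonempty then P.sup' h (fun k => pc k y) else 0

/-- the crossing points -/
noncomputable def zp (P : Finset (ℝ × Option ℝ)) : Finset ℝ :=
  (P ×ˢ P).image (fun k => k.1.1 - k.2.2.getD 0)

theorem card_zp (P : Finset (ℝ × Option ℝ)) : (zp P).card ≤ P.card ^ 2 := by
  refine Finset.card_image_le.trans ?_
  rw [Finset.card_product, sq]

theorem pc_le (k : ℝ × Option ℝ) (y : ℝ) : pc k y ≤ k.1 := by
  unfold pc
  split
  · exact le_rfl
  · exact min_le_left _ _

theorem mx_kink (P : Finset (ℝ × Option ℝ)) {y₁ y₂ : ℝ} (hy : y₁ ≤ y₂)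
    (hz : ∀ z ∈ zp P, z < y₁ ∨ y₂ < z) :
    (∀ y, y₁ ≤ y → y ≤ y₂ → mx P y = mx P y₁) ∨
      (∀ y, y₁ ≤ y → y ≤ y₂ → mx P y = mx P y₁ + (y - y₁)) := by
  by_cases hP : P.Nonempty
  swap
  · left
    intro y _ _
    simp only [mx, hP, dif_neg, not_false_eq_true]
  simp only [mx, hP, dif_pos]
  obtain ⟨k0, hk0, hmax⟩ := Finset.exists_mem_eq_sup' hP (fun k => pc k y₁)
  have hmax' : ∀ k ∈ P, pc k y₁ ≤ pc k0 y₁ := by
    intro k hk
    rw [← hmax]
    exact Finset.le_sup' (fun k => pc k y₁) hk
  -- comparisons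
  have hcmp : ∀ k ∈ P, ∀ k' ∈ P, ∀ d, k'.2 = some d →
      (∀ y, y₁ ≤ y → y ≤ y₂ → k.1 < y + d) ∨ (∀ y, y₁ ≤ y → y ≤ y₂ → y + d < k.1) := by
    intro k hk k' hk' d hd
    have h1 : k.1 - d ∈ zp P := by
      rw [zp, Finset.mem_image]
      exact ⟨(k, k'), Finset.mem_product.2 ⟨hk, hk'⟩, by simp [hd]⟩
    rcases hz _ h1 with h | h
    · left; intro y h2 _; linarith
    · right; intro y _ h2; linarith
  -- the value at `k0`
  have hcase : (pc k0 y₁ = k0.1 ∧ ∀ y, y₁ ≤ y → y ≤ y₂ → pc k0 y = k0.1) ∨
      ∃ d, k0.2 = some d ∧ (∀ y, y₁ ≤ y → y ≤ y₂ → y + d < k0.1) ∧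
        ∀ y, y₁ ≤ y → y ≤ y₂ → pc k0 y = y + d := by
    rcases hd : k0.2 with _ | d
    · left
      have : ∀ y, pc k0 y = k0.1 := fun y => by unfold pc; rw [hd]
      exact ⟨this y₁, fun y _ _ => this y⟩
    · rcases hcmp k0 hk0 k0 hk0 d hd with h | h
      · left
        have : ∀ y, y₁ ≤ y → y ≤ y₂ → pc k0 y = k0.1 := fun y h1 h2 => by
          unfold pc; rw [hd]; exact min_eq_left (h y h1 h2).le
        exact ⟨this y₁ le_rfl hy, this⟩
      · right
        refine ⟨d, rfl, h, fun y h1 h2 => ?_⟩
        unfold pc; rw [hd]; exact min_eq_right (h y h1 h2).le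
  rcases hcase with ⟨hv, hconst⟩ | ⟨d, hd, hlt, hlin⟩
  · left
    intro y h1 h2
    rw [hmax, hv]
    apply le_antisymm
    · apply Finset.sup'_le
      intro k hk
      have h3 := hmax' k hk
      rw [hv] at h3
      rcases hkd : k.2 with _ | d'
      · have : ∀ y, pc k y = k.1 := fun y => by unfold pc; rw [hkd]
        rw [this] at h3 ⊢
        exact h3
      · have e1 : ∀ y, pc k y = min k.1 (y + d') := fun y => by unfold pc; rw [hkd]
        rw [e1] at h3 ⊢
        rcases min_le_iff.1 h3 with h4 | h4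
        · exact (min_le_left _ _).trans h4
        · rcases hcmp k0 hk0 k hk d' hkd with h5 | h5
          · have := h5 y₁ le_rfl hy
            linarith
          · exact (min_le_right _ _).trans (h5 y h1 h2).le
    · rw [← hconst y h1 h2]
      exact Finset.le_sup' (fun k => pc k y) hk0
  · right
    intro y h1 h2
    rw [hmax, hlin y₁ le_rfl hy]
    have e0 : y₁ + d + (y - y₁) = y + d := by ring
    rw [e0]
    apply le_antisymm
    · apply Finset.sup'_le
      intro k hk
      have h3 := hmax' k hk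
      rw [hlin y₁ le_rfl hy] at h3
      rcases hkd : k.2 with _ | d'
      · have : ∀ y, pc k y = k.1 := fun y => by unfold pc; rw [hkd]
        rw [this] at h3 ⊢
        linarith
      · have e1 : ∀ y, pc k y = min k.1 (y + d') := fun y => by unfold pc; rw [hkd]
        rw [e1] at h3 ⊢
        rcases min_le_iff.1 h3 with h4 | h4
        · exact (min_le_left _ _).trans (by linarith)
        · exact (min_le_right _ _).trans (by linarith)
    · rw [← hlin y h1 h2]
      exact Finset.le_sup' (fun k => pc k y) hk0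

/-! ### clusters -/

/-- the elementary vectors whose coordinate `e` is of size `lo` -/
def clu (r : ℕ) (Ls : Submodule ℝ (ℕ → ℝ)) (X : Finset ℕ) (nu e : ℕ) (lo : ℝ) :
    Set (ℕ → ℝ) := {v | ElV Ls X nu v ∧ lo ≤ v e ∧ v e ≤ X.card * 2 ^ r * lo}

/-- the infimum of the linear form on a cluster -/
noncomputable def gi (r : ℕ) (Ls : Submodule ℝ (ℕ → ℝ)) (X : Finset ℕ) (q nu e : ℕ)
    (lo : ℝ) : ℝ := sInf ((fun v : ℕ → ℝ => max (v q) 0) '' clu r Ls X nu e lo)

theorem exists_lo {Ls : Submodule ℝ (ℕ → ℝ)} {X : Finset ℕ} {q nu r : ℕ}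
    (hS : SpC Ls X q nu) (hsc : ScOn r Ls X nu) {e : ℕ} (he : e ∈ X) :
    ∃ Lo : Finset ℝ, Lo.card ≤ X.card * r ∧ (∀ lo ∈ Lo, 0 < lo) ∧
      ∀ v, ElV Ls X nu v → v e ≠ 0 → ∃ lo ∈ Lo, v ∈ clu r Ls X nu e lo := by
  classical
  choose! S hS1 hS2 hS3 using fun i (hi : i ∈ X) => hsc i hi e he
  have hX : 0 < (X.card : ℝ) := by
    have : 0 < X.card := Finset.card_pos.2 ⟨e, he⟩
    exact_mod_cast this
  refine ⟨X.biUnion fun i => (S i).image (fun s => ((X.card : ℝ) * 2 ^ r * s)⁻¹), ?_, ?_, ?_⟩
  · refine Finset.card_biUnion_le.trans ?_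
    calc ∑ i ∈ X, ((S i).image (fun s => ((X.card : ℝ) * 2 ^ r * s)⁻¹)).card
        ≤ ∑ i ∈ X, r := Finset.sum_le_sum fun i hi => Finset.card_image_le.trans (hS1 i hi)
      _ = X.card * r := by rw [Finset.sum_const, smul_eq_mul]
  · intro lo hlo
    rw [Finset.mem_biUnion] at hlo
    obtain ⟨i, hi, hlo⟩ := hlo
    rw [Finset.mem_image] at hlo
    obtain ⟨s, hs, rfl⟩ := hlo
    have := hS2 i hi s hs
    positivity
  · intro v hv hve
    have hve0 : 0 < v e := lt_of_le_of_ne (hv.2.1 e he) (Ne.symm hve)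
    obtain ⟨i, hi, himax⟩ := Finset.exists_max_image X v ⟨e, he⟩
    have hvi : 0 < v i := lt_of_lt_of_le hve0 (himax e he)
    obtain ⟨s, hs, h1, h2⟩ := hS3 i hi v hv hvi.ne' hve
    have hs0 := hS2 i hi s hs
    have hsum : ∑ c ∈ X, v c = 1 := by
      rw [← hS.2.2.2.1 v hv.1]
      exact hv.2.2.1
    have hle1 : v i ≤ 1 := by
      rw [← hsum]
      exact Finset.single_le_sum (fun c hc => hv.2.1 c hc) hi
    have hge : 1 ≤ X.card * v i := by
      rw [← hsum]
      calc ∑ c ∈ X, v c ≤ X.card • v i := Finset.sum_le_card_nsmul _ _ _ himax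
        _ = X.card * v i := nsmul_eq_mul _ _
    rw [le_div_iff₀ hve0] at h1
    rw [div_le_iff₀ hve0] at h2
    refine ⟨((X.card : ℝ) * 2 ^ r * s)⁻¹, ?_, hv, ?_, ?_⟩
    · rw [Finset.mem_biUnion]
      exact ⟨i, hi, Finset.mem_image.2 ⟨s, hs, rfl⟩⟩
    · rw [inv_le_iff_one_le_mul₀ (by positivity)]
      calc (1 : ℝ) ≤ X.card * v i := hge
        _ ≤ X.card * (2 ^ r * s * v e) := by gcongr
        _ = v e * (X.card * 2 ^ r * s) := by ring
    · have : (X.card : ℝ) * 2 ^ r * (X.card * 2 ^ r * s)⁻¹ = s⁻¹ := by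
        field_simp
      rw [this, le_inv_comm₀ hve0 hs0]
      rw [← one_div, le_div_iff₀ hve0]
      linarith

theorem gi_nonneg (r : ℕ) (Ls : Submodule ℝ (ℕ → ℝ)) (X : Finset ℕ) (q nu e : ℕ)
    (lo : ℝ) : 0 ≤ gi r Ls X q nu e lo := by
  apply Real.sInf_nonneg
  rintro _ ⟨v, _, rfl⟩
  exact le_max_right _ _

theorem gi_le {r : ℕ} {Ls : Submodule ℝ (ℕ → ℝ)} {X : Finset ℕ} {q nu e : ℕ}
    {lo : ℝ} {v : ℕ → ℝ} (hv : v ∈ clu r Ls X nu e lo) : gi r Ls X q nu e lo ≤ max (v q) 0 := by
  apply csInf_le
  · exact ⟨0, by rintro _ ⟨v, _, rfl⟩; exact le_max_right _ _⟩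
  · exact ⟨v, hv, rfl⟩

/-- the pieces of the coordinate `e` -/
noncomputable def pcs (r : ℕ) (Ls : Submodule ℝ (ℕ → ℝ)) (X : Finset ℕ) (q nu e : ℕ)
    (Lo : Finset ℝ) : Finset (ℝ × Option ℝ) := by
  classical
  exact (Lo.filter (fun lo => (clu r Ls X nu e lo).Nonempty)).image
    (fun lo => (Real.logb 2 lo, if gi r Ls X q nu e lo = 0 then none
      else some (Real.logb 2 lo - Real.logb 2 (gi r Ls X q nu e lo))))

theorem mem_pcs {r : ℕ} {Ls : Submodule ℝ (ℕ → ℝ)} {X : Finset ℕ} {q nu e : ℕ}
    {Lo : Finset ℝ} {k : ℝ × Option ℝ} : k ∈ pcs r Ls X q nu e Lo ↔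
      ∃ lo ∈ Lo, (clu r Ls X nu e lo).Nonempty ∧ k = (Real.logb 2 lo,
        if gi r Ls X q nu e lo = 0 then none
          else some (Real.logb 2 lo - Real.logb 2 (gi r Ls X q nu e lo))) := by
  classical
  unfold pcs
  rw [Finset.mem_image]
  constructor
  · rintro ⟨lo, hlo, rfl⟩
    rw [Finset.mem_filter] at hlo
    exact ⟨lo, hlo.1, hlo.2, rfl⟩
  · rintro ⟨lo, h1, h2, rfl⟩
    exact ⟨lo, Finset.mem_filter.2 ⟨h1, h2⟩, rfl⟩

theorem card_pcs (r : ℕ) (Ls : Submodule ℝ (ℕ → ℝ)) (X : Finset ℕ) (q nu e : ℕ)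
    (Lo : Finset ℝ) : (pcs r Ls X q nu e Lo).card ≤ Lo.card := by
  classical
  unfold pcs
  exact Finset.card_image_le.trans (Finset.card_filter_le _ _)

/-- lower bound of the weights -/
theorem low_bd {Ls : Submodule ℝ (ℕ → ℝ)} {X : Finset ℕ} {q nu r : ℕ} {t : ℝ} {w : ℕ → ℝ}
    {M : ℝ} (hW : Wts X q nu t w) (hB : Bds Ls X q nu t w M) {e : ℕ} (he : e ∈ X)
    {lo : ℝ} (hlo : 0 < lo) (hne : (clu r Ls X nu e lo).Nonempty)
    (h1 : w e < lo) (h2 : gi r Ls X q nu e lo * w e < t * lo) : False := by
  obtain ⟨w1, w2, w3, w4, w5, w6, w7⟩ := hW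
  have hwe := w5 e he
  have h3 : gi r Ls X q nu e lo < t * lo / w e := by
    rw [lt_div_iff₀ hwe]
    exact h2
  obtain ⟨_, ⟨v, hv, rfl⟩, hlt⟩ := exists_lt_of_csInf_lt (hne.image _) h3
  obtain ⟨hel, hl1, hl2⟩ := hv
  by_cases hvt : v q ≤ t
  · have h4 : v ∈ Sl Ls X q nu t := ⟨hel.1, hel.2.1, hel.2.2.1.le, hvt⟩
    have := (hB v h4).1 e he
    linarith
  · push Not at hvt
    have hvq : 0 < v q := w4.trans hvt
    have h4 : (t / v q) • v ∈ Sl Ls X q nu t := by
      refine ⟨Ls.smul_mem _ hel.1, fun c hc => ?_, ?_, ?_⟩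
      · exact mul_nonneg (by positivity) (hel.2.1 c hc)
      · show t / v q * v nu ≤ 1
        rw [hel.2.2.1, mul_one, div_le_one hvq]
        exact hvt.le
      · show t / v q * v q ≤ t
        rw [div_mul_cancel₀ _ hvq.ne']
    have h5 : t / v q * v e ≤ w e := (hB _ h4).1 e he
    have h6 : v q < t * lo / w e := lt_of_le_of_lt (le_max_left _ _) hlt
    rw [lt_div_iff₀ hwe] at h6
    rw [div_mul_eq_mul_div, div_le_iff₀ hvq] at h5
    have h7 : t * lo ≤ t * v e := by gcongr
    linarith [mul_comm (v q) (w e)]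

theorem t_FST : S_DECO → S_FST := by
  intro hDeco Ls X q nu r K hr hS hK hsc
  classical
  have hex : ∀ e : ℕ, ∃ Lo : Finset ℝ, Lo.card ≤ X.card * r ∧ (∀ lo ∈ Lo, 0 < lo) ∧
      (e ∈ X → ∀ v, ElV Ls X nu v → v e ≠ 0 → ∃ lo ∈ Lo, v ∈ clu r Ls X nu e lo) := by
    intro e
    by_cases he : e ∈ X
    · obtain ⟨Lo, h1, h2, h3⟩ := exists_lo hS hsc he
      exact ⟨Lo, h1, h2, fun _ => h3⟩
    · exact ⟨∅, by simp, by simp, fun h => absurd h he⟩
  choose Lo hLo1 hLo2 hLo3 using hex
  set P : ℕ → Finset (ℝ × Option ℝ) := fun e => pcs r Ls X q nu e (Lo e) with hP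
  refine ⟨X.biUnion fun e => zp (P e), fun e y => if e = q then y else if e = nu then 0 else
    mx (P e) y, ?_, ?_, ?_⟩
  · refine Finset.card_biUnion_le.trans ?_
    have hXK : X.card ≤ K := by omega
    calc ∑ e ∈ X, (zp (P e)).card ≤ ∑ e ∈ X, (K * r) ^ 2 := by
          refine Finset.sum_le_sum fun e he => (card_zp _).trans ?_
          have h1 : (P e).card ≤ K * r :=
            (card_pcs r Ls X q nu e (Lo e)).trans ((hLo1 e).trans (by gcongr))
          gcongr
      _ = X.card * (K * r) ^ 2 := by rw [Finset.sum_const, smul_eq_mul]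
      _ ≤ K * (K * r) ^ 2 := by gcongr
  · intro y₁ y₂ hy hz
    have hdich : ∀ e ∈ X, (∀ y, y₁ ≤ y → y ≤ y₂ → mx (P e) y = mx (P e) y₁) ∨
        (∀ y, y₁ ≤ y → y ≤ y₂ → mx (P e) y = mx (P e) y₁ + (y - y₁)) := by
      intro e he
      exact mx_kink (P e) hy fun z hz' => hz z (Finset.mem_biUnion.2 ⟨e, he, hz'⟩)
    refine ⟨fun e => if e = q then true else if e = nu then false else
      if (∀ y, y₁ ≤ y → y ≤ y₂ → mx (P e) y = mx (P e) y₁) then false else true, ?_, ?_, ?_⟩
    · have : nu ≠ q := fun h => hS.2.2.1 h.symm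
      simp [this]
    · simp
    · intro e he y h1 h2
      by_cases heq : e = q
      · simp [heq]
      · by_cases hen : e = nu
        · have hnq : nu ≠ q := fun h => hS.2.2.1 h.symm
          simp [hen, hnq]
        · have heX : e ∈ X := by
            rw [Finset.mem_insert, Finset.mem_insert] at he
            tauto
          simp only [heq, hen, if_false]
          by_cases hc : ∀ y, y₁ ≤ y → y ≤ y₂ → mx (P e) y = mx (P e) y₁
          · rw [if_pos hc]
            simp only [Bool.false_eq_true, if_false, add_zero]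
            exact hc y h1 h2
          · rw [if_neg hc]
            simp only [if_true]
            rcases hdich e heX with h3 | h3
            · exact absurd h3 hc
            · exact h3 y h1 h2
  · intro t w M ε x hW hε hε1 hM hB hx e he
    have hW' := hW
    obtain ⟨w1, w2, w3, w4, w5, w6, w7⟩ := hW
    have hK2 : (2 : ℝ) ≤ K := by
      have : 2 ≤ K := by omega
      exact_mod_cast this
    have hKpos : 1 ≤ (K : ℝ) ^ 2 * (1 + M) / ε := by
      rw [le_div_iff₀ hε]
      nlinarith
    have hext : 0 ≤ (r : ℝ) + Real.logb 2 (K ^ 2 * (1 + M) / ε) := by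
      have := Real.logb_nonneg (b := 2) (by norm_num) hKpos
      positivity
    by_cases heq : e = q
    · subst heq
      simp only [if_true]
      rw [w6]
      exact ⟨le_rfl, by linarith⟩
    · by_cases hen : e = nu
      · subst hen
        simp only [heq, if_false, if_true]
        rw [w7, Real.logb_one]
        exact ⟨le_rfl, by linarith⟩
      · have heX : e ∈ X := by
          rw [Finset.mem_insert, Finset.mem_insert] at he
          tauto
        have hwe := w5 e heX
        simp only [heq, hen, if_false]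
        have hXc : 0 < (X.card : ℝ) := by
          have : 0 < X.card := Finset.card_pos.2 ⟨e, heX⟩
          exact_mod_cast this
        have hXK : (X.card : ℝ) ≤ K := by
          have : X.card ≤ K := by omega
          exact_mod_cast this
        -- the decomposition of `x`
        obtain ⟨x1, x2, x3, x4⟩ := hx
        have hx0 : ∀ c ∈ X, 0 ≤ x c := by
          intro c hc
          have h1 := x2 c hc
          have h2 := w5 c hc
          have h3 : 0 < ε * w c := by positivity
          linarith
        obtain ⟨v, l, hl, hsum, hsnu, hsq⟩ := hDeco Ls X q nu x hS x1 hx0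
        have hxe : ε * w e ≤ x e := x2 e heX
        -- some elementary vector is nonzero at `e`
        have hsome : ∃ i ∈ Finset.range X.card, l i ≠ 0 ∧ v i e ≠ 0 := by
          by_contra hcon
          push Not at hcon
          have h1 : x e = 0 := by
            rw [hsum e heX]
            refine Finset.sum_eq_zero fun i hi => ?_
            by_cases h : l i = 0
            · rw [h, zero_mul]
            · rw [hcon i hi h, mul_zero]
          have h3 : 0 < ε * w e := by positivity
          linarith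
        have hPne : (P e).Nonempty := by
          obtain ⟨i, hi, hli, hvi⟩ := hsome
          obtain ⟨lo, hlo, hv⟩ := hLo3 e heX (v i) ((hl i (Finset.mem_range.1 hi)).2 hli) hvi
          exact ⟨_, mem_pcs.2 ⟨lo, hlo, ⟨v i, hv⟩, rfl⟩⟩
        have hmx : ∀ y, mx (P e) y = (P e).sup' hPne (fun k => pc k y) := by
          intro y
          simp only [mx, hPne, dif_pos]
        constructor
        · rw [hmx]
          apply Finset.sup'_le
          intro k hk
          obtain ⟨lo, hlo, hne, rfl⟩ := mem_pcs.1 hk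
          have hlo0 := hLo2 e lo hlo
          by_contra hcon
          push Not at hcon
          have h1 : w e < lo := by
            have h2 := lt_of_lt_of_le hcon (pc_le _ _)
            simp only at h2
            exact (Real.logb_lt_logb_iff (by norm_num) hwe hlo0).1 h2
          apply low_bd hW' hB heX hlo0 hne h1
          by_cases hg : gi r Ls X q nu e lo = 0
          · rw [hg, zero_mul]
            positivity
          · have hg0 : 0 < gi r Ls X q nu e lo :=
              lt_of_le_of_ne (gi_nonneg _ _ _ _ _ _ _) (Ne.symm hg)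
            rw [if_neg hg] at hcon
            simp only [pc] at hcon
            have h2 := lt_of_lt_of_le hcon (min_le_right _ _)
            have h3 : Real.logb 2 t + (Real.logb 2 lo - Real.logb 2 (gi r Ls X q nu e lo)) =
                Real.logb 2 (t * lo / gi r Ls X q nu e lo) := by
              rw [Real.logb_div (by positivity) hg, Real.logb_mul w4.ne' hlo0.ne']
              ring
            rw [h3, Real.logb_lt_logb_iff (by norm_num) hwe (by positivity),
              lt_div_iff₀ hg0] at h2
            linarith [mul_comm (w e) (gi r Ls X q nu e lo)]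
        · -- upper bound
          set Fv : ℝ := mx (P e) (Real.logb 2 t) with hFv
          have h2F : 0 < (2 : ℝ) ^ Fv := Real.rpow_pos_of_pos two_pos _
          have hM0 : 0 < 1 + M := by linarith
          -- bounds of `l`
          have hlnn : ∀ i ∈ Finset.range X.card, 0 ≤ l i :=
            fun i hi => (hl i (Finset.mem_range.1 hi)).1
          have hl1 : ∑ i ∈ Finset.range X.card, l i ≤ 1 := by
            rw [← hsnu]; linarith
          have hneg : ∀ i ∈ Finset.range X.card, l i ≠ 0 → max (v i q) 0 ≤ v i q + M * t := by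
            intro i hi hli
            have hel := (hl i (Finset.mem_range.1 hi)).2 hli
            by_cases h0 : 0 ≤ v i q
            · rw [max_eq_left h0]
              have : 0 ≤ M * t := by positivity
              linarith
            · push Not at h0
              rw [max_eq_right h0.le]
              have h4 : v i ∈ Sl Ls X q nu t := ⟨hel.1, hel.2.1, hel.2.2.1.le, by linarith⟩
              have := (hB _ h4).2.1
              linarith
          have hlq : ∀ i ∈ Finset.range X.card, l i * max (v i q) 0 ≤ (1 + M) * t := by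
            intro i hi
            have h4 : l i * max (v i q) 0 ≤ ∑ j ∈ Finset.range X.card, l j * max (v j q) 0 :=
              Finset.single_le_sum (f := fun j => l j * max (v j q) 0)
                (fun j hj => mul_nonneg (hlnn j hj) (le_max_right _ _)) hi
            have h5 : ∑ j ∈ Finset.range X.card, l j * max (v j q) 0 ≤
                ∑ j ∈ Finset.range X.card, (l j * v j q + l j * (M * t)) := by
              refine Finset.sum_le_sum fun j hj => ?_
              by_cases h : l j = 0
              · rw [h]; simp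
              · have := mul_le_mul_of_nonneg_left (hneg j hj h) (hlnn j hj)
                linarith
            rw [Finset.sum_add_distrib, ← hsq, ← Finset.sum_mul] at h5
            have h6 : (∑ j ∈ Finset.range X.card, l j) * (M * t) ≤ 1 * (M * t) := by
              gcongr
            have h7 : x q ≤ t := by nlinarith
            linarith
          have hterm : ∀ i ∈ Finset.range X.card, l i * v i e ≤
              (1 + M) * (X.card * 2 ^ r) * 2 ^ Fv := by
            intro i hi
            by_cases hli : l i = 0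
            · rw [hli, zero_mul]; positivity
            by_cases hvi : v i e = 0
            · rw [hvi, mul_zero]; positivity
            obtain ⟨lo, hlo, hv⟩ := hLo3 e heX (v i) ((hl i (Finset.mem_range.1 hi)).2 hli) hvi
            have hlo0 := hLo2 e lo hlo
            have hk : ((Real.logb 2 lo, if gi r Ls X q nu e lo = 0 then none
                else some (Real.logb 2 lo - Real.logb 2 (gi r Ls X q nu e lo))) :
                ℝ × Option ℝ) ∈ P e := mem_pcs.2 ⟨lo, hlo, ⟨v i, hv⟩, rfl⟩
            have h4 := Finset.le_sup' (fun k => pc k (Real.logb 2 t)) hk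
            rw [← hmx, ← hFv] at h4
            have hli1 : l i ≤ 1 := (Finset.single_le_sum hlnn hi).trans hl1
            have hkey : l i * lo ≤ (1 + M) * 2 ^ Fv := by
              by_cases hg : gi r Ls X q nu e lo = 0
              · rw [if_pos hg] at h4
                simp only [pc] at h4
                have h5 : lo ≤ 2 ^ Fv := by
                  rw [← Real.logb_le_iff_le_rpow (by norm_num) hlo0]
                  exact h4
                calc l i * lo ≤ 1 * 2 ^ Fv := by gcongr
                  _ ≤ (1 + M) * 2 ^ Fv := by gcongr; linarith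
              · have hg0 : 0 < gi r Ls X q nu e lo :=
                  lt_of_le_of_ne (gi_nonneg _ _ _ _ _ _ _) (Ne.symm hg)
                rw [if_neg hg] at h4
                simp only [pc] at h4
                rcases min_le_iff.1 h4 with h5 | h5
                · have h6 : lo ≤ 2 ^ Fv := by
                    rw [← Real.logb_le_iff_le_rpow (by norm_num) hlo0]
                    exact h5
                  calc l i * lo ≤ 1 * 2 ^ Fv := by gcongr
                    _ ≤ (1 + M) * 2 ^ Fv := by gcongr; linarith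
                · have h3 : Real.logb 2 t +
                      (Real.logb 2 lo - Real.logb 2 (gi r Ls X q nu e lo)) =
                      Real.logb 2 (t * lo / gi r Ls X q nu e lo) := by
                    rw [Real.logb_div (by positivity) hg, Real.logb_mul w4.ne' hlo0.ne']
                    ring
                  rw [h3, Real.logb_le_iff_le_rpow (by norm_num) (by positivity),
                    div_le_iff₀ hg0] at h5
                  have h6 : l i * gi r Ls X q nu e lo ≤ (1 + M) * t := by
                    refine le_trans ?_ (hlq i hi)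
                    apply mul_le_mul_of_nonneg_left (gi_le hv) (hlnn i hi)
                  have h7 : (l i * lo) * (gi r Ls X q nu e lo * t) ≤
                      ((1 + M) * 2 ^ Fv) * (gi r Ls X q nu e lo * t) := by
                    calc (l i * lo) * (gi r Ls X q nu e lo * t)
                        = (l i * gi r Ls X q nu e lo) * (t * lo) := by ring
                      _ ≤ ((1 + M) * t) * (2 ^ Fv * gi r Ls X q nu e lo) := by gcongr
                      _ = ((1 + M) * 2 ^ Fv) * (gi r Ls X q nu e lo * t) := by ring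
                  exact le_of_mul_le_mul_right h7 (by positivity)
            calc l i * v i e ≤ l i * (X.card * 2 ^ r * lo) := by
                  apply mul_le_mul_of_nonneg_left hv.2.2 (hlnn i hi)
              _ = (X.card * 2 ^ r) * (l i * lo) := by ring
              _ ≤ (X.card * 2 ^ r) * ((1 + M) * 2 ^ Fv) := by gcongr
              _ = (1 + M) * (X.card * 2 ^ r) * 2 ^ Fv := by ring
          have hxe2 : x e ≤ X.card * ((1 + M) * (X.card * 2 ^ r) * 2 ^ Fv) := by
            rw [hsum e heX]
            calc ∑ i ∈ Finset.range X.card, l i * v i e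
                ≤ (Finset.range X.card).card • ((1 + M) * (X.card * 2 ^ r) * 2 ^ Fv) :=
                  Finset.sum_le_card_nsmul _ _ _ hterm
              _ = X.card * ((1 + M) * (X.card * 2 ^ r) * 2 ^ Fv) := by
                  rw [Finset.card_range, nsmul_eq_mul]
          have hwle : w e ≤ (K ^ 2 * (1 + M) / ε) * (2 ^ r * 2 ^ Fv) := by
            have h8 : ε * w e ≤ K ^ 2 * (1 + M) * (2 ^ r * 2 ^ Fv) := by
              refine (hxe.trans hxe2).trans ?_
              have h9 : (X.card : ℝ) * ((1 + M) * (X.card * 2 ^ r) * 2 ^ Fv) =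
                  (X.card : ℝ) ^ 2 * (1 + M) * (2 ^ r * 2 ^ Fv) := by ring
              rw [h9]
              gcongr
            rw [div_mul_eq_mul_div, le_div_iff₀ hε]
            linarith
          have hpos : 0 < (K : ℝ) ^ 2 * (1 + M) / ε := by positivity
          have h10 := Real.logb_le_logb_of_le (b := 2) (by norm_num) hwe hwle
          rw [Real.logb_mul hpos.ne' (by positivity), Real.logb_mul (by positivity) h2F.ne',
            Real.logb_rpow (by norm_num) (by norm_num)] at h10
          have h11 : Real.logb 2 ((2 : ℝ) ^ r) = r := by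
            rw [← Real.rpow_natCast, Real.logb_rpow (by norm_num) (by norm_num)]
          rw [h11] at h10
          linarith

end Pool.Agent.Y721.CS
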