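import Pool.Agent.Y648.CS.StmS

set_option autoImplicit false

/-! Components and jumps. -/

namespace Pool.Agent.Y721.CS

open Finset Pool.Agent.Y648.CS

/-- The part of `z` in the coordinates `P`. -/
theorem part_ex {Ls : Submodule ℝ (ℕ → ℝ)} {Ac bs : Finset ℕ} {T : ℕ → ℕ → ℝ}
    (h : Tab Ls Ac bs T) (P : Finset ℕ) {z : ℕ → ℝ} (hz : z ∈ Ls) :
    ∃ zB ∈ Ls, (∀ j ∈ Ac \ bs, zB j = if j ∈ P then z j else 0) ∧
      (∀ i ∈ bs, zB i = ∑ j ∈ Ac \ bs, if j ∈ P then T i j * z j else 0) ∧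
      ∀ i ∈ bs, z i - zB i = ∑ j ∈ Ac \ bs, if j ∉ P then T i j * z j else 0 := by
  obtain ⟨hsub, h1, h2⟩ := h
  obtain ⟨zB, hzB, hz2⟩ := h2 (fun j => if j ∈ P then z j else 0)
  have h3 : ∀ i ∈ bs, zB i = ∑ j ∈ Ac \ bs, if j ∈ P then T i j * z j else 0 := by
    intro i hi
    rw [h1 zB hzB i hi]
    refine Finset.sum_congr rfl fun j hj => ?_
    rw [hz2 j hj]
    split_ifs <;> simp
  refine ⟨zB, hzB, hz2, h3, fun i hi => ?_⟩
  rw [h3 i hi, h1 z hz i hi, ← Finset.sum_sub_distrib]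
  refine Finset.sum_congr rfl fun j hj => ?_
  split_ifs <;> simp

theorem sum_bd {S : Finset ℕ} {K : ℕ} (hS : S.card ≤ K) {c : ℕ → Prop} [DecidablePred c]
    {f z w : ℕ → ℝ} {η μ W : ℝ} (hη : 0 ≤ η) (hμ : 0 ≤ μ) (hW : 0 ≤ W)
    (h1 : ∀ j ∈ S, c j → |f j| * w j ≤ η * W) (h2 : ∀ j ∈ S, c j → |z j| ≤ μ * w j) :
    |∑ j ∈ S, if c j then f j * z j else 0| ≤ K * η * μ * W := by
  refine (Finset.abs_sum_le_sum_abs _ _).trans ?_
  have h3 : ∀ j ∈ S, |if c j then f j * z j else 0| ≤ η * μ * W := by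
    intro j hj
    split_ifs with hc
    · rw [abs_mul]
      calc |f j| * |z j| ≤ |f j| * (μ * w j) := by gcongr; exact h2 j hj hc
        _ = μ * (|f j| * w j) := by ring
        _ ≤ μ * (η * W) := mul_le_mul_of_nonneg_left (h1 j hj hc) hμ
        _ = η * μ * W := by ring
    · rw [abs_zero]
      positivity
  calc ∑ j ∈ S, |if c j then f j * z j else 0| ≤ S.card • (η * μ * W) :=
        Finset.sum_le_card_nsmul _ _ _ h3
    _ = (S.card : ℝ) * (η * μ * W) := by rw [nsmul_eq_mul]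
    _ ≤ K * (η * μ * W) := by
        have : (S.card : ℝ) ≤ K := by exact_mod_cast hS
        gcongr
    _ = K * η * μ * W := by ring

theorem card_Ac {X : Finset ℕ} {q nu K : ℕ} (h : X.card + 2 ≤ K) (bs : Finset ℕ) :
    (insert q (insert nu X) \ bs).card ≤ K := by
  have h1 := Finset.card_le_card (Finset.sdiff_subset (s := insert q (insert nu X)) (t := bs))
  have h2 := Finset.card_insert_le q (insert nu X)
  have h3 := Finset.card_insert_le nu X
  omega

theorem wpos {X : Finset ℕ} {q nu : ℕ} {t : ℝ} {w : ℕ → ℝ} (hW : Wts X q nu t w) :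
    ∀ j ∈ insert q (insert nu X), 0 < w j := by
  obtain ⟨h1, h2, h3, h4, h5, h6, h7⟩ := hW
  intro j hj
  rw [Finset.mem_insert, Finset.mem_insert] at hj
  rcases hj with rfl | rfl | hj
  · rw [h6]; exact h4
  · rw [h7]; exact one_pos
  · exact h5 j hj

theorem sl_bd {Ls : Submodule ℝ (ℕ → ℝ)} {X : Finset ℕ} {q nu : ℕ} {t : ℝ} {w : ℕ → ℝ} {M : ℝ}
    (hW : Wts X q nu t w) (hM : 1 ≤ M) (hB : Bds Ls X q nu t w M) {z : ℕ → ℝ}
    (hz : z ∈ Sl Ls X q nu t) : ∀ j ∈ insert q (insert nu X), |z j| ≤ M * w j := by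
  obtain ⟨h1, h2, h3, h4, h5, h6, h7⟩ := hW
  obtain ⟨z1, z2, z3, z4⟩ := hz
  obtain ⟨b1, b2, b3⟩ := hB z ⟨z1, z2, z3, z4⟩
  intro j hj
  rw [Finset.mem_insert, Finset.mem_insert] at hj
  rcases hj with rfl | rfl | hj
  · rw [h6, abs_le]
    constructor
    · linarith
    · nlinarith
  · rw [h7, abs_of_nonneg b3]
    linarith
  · rw [abs_of_nonneg (z2 j hj)]
    have := b1 j hj
    have := h5 j hj
    nlinarith

theorem cen_sl {Ls : Submodule ℝ (ℕ → ℝ)} {X : Finset ℕ} {q nu : ℕ} {t : ℝ} {w : ℕ → ℝ} {ε : ℝ}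
    (hW : Wts X q nu t w) (hε : 0 < ε) {x : ℕ → ℝ}
    (hx : Cen Ls X q nu t w ε x) : x ∈ Sl Ls X q nu t := by
  obtain ⟨h1, h2, h3, h4, h5, h6, h7⟩ := hW
  obtain ⟨x1, x2, x3, x4⟩ := hx
  refine ⟨x1, fun c hc => ?_, by linarith, ?_⟩
  · have := x2 c hc
    have := h5 c hc
    nlinarith
  · nlinarith

theorem t_COMP : S_COMP := by
  intro Ls X q nu t w M ε η K bs T x U hW hK hε hε1 hM hη hsm hB hx hT hU hUne hdec
  have hxS := cen_sl hW hε hx
  have hxb := sl_bd hW hM hB hxS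
  have hwp := wpos hW
  obtain ⟨h1, h2, h3, h4, h5, h6, h7⟩ := hW
  obtain ⟨x1, x2, x3, x4⟩ := hx
  have hM0 : 0 ≤ M := by linarith
  obtain ⟨zB, hz, hz1, hz2, hz3⟩ := part_ex hT U x1
  set Ac := insert q (insert nu X) with hAc
  have hbs : bs ⊆ Ac := hT.1
  set a : ℝ := K * η * M with ha
  have ha0 : 0 ≤ a := by positivity
  have ha1 : 4 * a < ε ^ 2 := by rw [ha]; linarith
  -- the bounds
  have hin : ∀ j ∈ Ac, j ∈ U → |x j - zB j| ≤ a * w j := by
    intro j hj hjU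
    by_cases hjb : j ∈ bs
    · rw [hz3 j hjb, ha]
      refine sum_bd (w := w) (card_Ac hK bs) hη hM0 (hwp j hj).le (fun i hi hiU => ?_) (fun i hi hiU => ?_)
      · exact hdec j hjb i hi (by simp [hjU, hiU])
      · exact hxb i (Finset.mem_sdiff.1 hi).1
    · rw [hz1 j (Finset.mem_sdiff.2 ⟨hj, hjb⟩), if_pos hjU, sub_self, abs_zero]
      exact mul_nonneg ha0 (hwp j hj).le
  have hout : ∀ j ∈ Ac, j ∉ U → |zB j| ≤ a * w j := by
    intro j hj hjU
    by_cases hjb : j ∈ bs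
    · rw [hz2 j hjb, ha]
      refine sum_bd (w := w) (card_Ac hK bs) hη hM0 (hwp j hj).le (fun i hi hiU => ?_) (fun i hi hiU => ?_)
      · exact hdec j hjb i hi (by simp [hjU, hiU])
      · exact hxb i (Finset.mem_sdiff.1 hi).1
    · rw [hz1 j (Finset.mem_sdiff.2 ⟨hj, hjb⟩), if_neg hjU, abs_zero]
      exact mul_nonneg ha0 (hwp j hj).le
  -- the point
  set s : ℝ := 4 / (3 * ε) with hs
  have hs0 : 0 < s := by positivity
  have hsa : s * a ≤ ε := by
    have : s * a = 4 * a / (3 * ε) := by rw [hs]; ring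
    rw [this, div_le_iff₀ (by positivity)]
    nlinarith
  have hse : 1 ≤ s * (ε - a) := by
    have h8 : a < ε / 4 := by nlinarith
    have h9 : s * (ε - a) ≥ s * (3 * ε / 4) := by
      apply mul_le_mul_of_nonneg_left _ hs0.le
      linarith
    have h10 : s * (3 * ε / 4) = 1 := by
      rw [hs]; field_simp
    linarith
  have hpt : x + s • zB ∈ Sl Ls X q nu t := by
    refine ⟨Ls.add_mem x1 (Ls.smul_mem s hz), fun c hc => ?_, ?_, ?_⟩
    · have hcA : c ∈ Ac := by rw [hAc]; simp [hc]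
      have hwc := h5 c hc
      have hxc := x2 c hc
      show 0 ≤ x c + s * zB c
      by_cases hcU : c ∈ U
      · have h8 := (abs_le.1 (hin c hcA hcU)).2
        have h9 : x c - a * w c ≤ zB c := by linarith
        have h10 : s * (x c - a * w c) ≤ s * zB c := by gcongr
        have h11 : s * (x c - a * w c) ≥ s * (ε * w c - a * w c) := by gcongr
        have h12 : s * (ε * w c - a * w c) = (s * (ε - a)) * w c := by ring
        have h13 : 0 ≤ (s * (ε - a)) * w c := by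
          apply mul_nonneg (by linarith) hwc.le
        nlinarith
      · have h8 := (abs_le.1 (hout c hcA hcU)).1
        have h9 : s * (-(a * w c)) ≤ s * zB c := by gcongr
        have h10 : s * (-(a * w c)) = -((s * a) * w c) := by ring
        have h11 : (s * a) * w c ≤ ε * w c := by gcongr
        linarith
    · have hcA : nu ∈ Ac := by rw [hAc]; simp
      have hcU : nu ∉ U := fun h => h2 (hU h)
      show x nu + s * zB nu ≤ 1
      have h8 := (abs_le.1 (hout nu hcA hcU)).2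
      rw [h7] at h8
      have h9 : s * zB nu ≤ s * (a * 1) := by gcongr
      linarith
    · have hcA : q ∈ Ac := by rw [hAc]; simp
      have hcU : q ∉ U := fun h => h1 (hU h)
      show x q + s * zB q ≤ t
      have h8 := (abs_le.1 (hout q hcA hcU)).2
      rw [h6] at h8
      have h9 : s * zB q ≤ s * (a * t) := by gcongr
      have h10 : s * (a * t) = (s * a) * t := by ring
      have h11 : (s * a) * t ≤ ε * t := by gcongr
      linarith
  obtain ⟨j, hj⟩ := hUne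
  have hjX := hU hj
  have hjA : j ∈ Ac := by rw [hAc]; simp [hjX]
  have h8 : x j + s * zB j ≤ w j := (hB _ hpt).1 j hjX
  have h9 := (abs_le.1 (hin j hjA hj)).2
  have h10 : s * (x j - a * w j) ≤ s * zB j := by
    apply mul_le_mul_of_nonneg_left _ hs0.le
    linarith
  have h11 := x2 j hjX
  have h12 : s * (ε * w j - a * w j) ≤ s * (x j - a * w j) := by gcongr
  have h13 : s * (ε * w j - a * w j) = (s * (ε - a)) * w j := by ring
  have h14 := h5 j hjX
  have h15 : 1 * w j ≤ (s * (ε - a)) * w j := by gcongr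
  have h16 : 0 < ε * w j := mul_pos hε h14
  linarith

/-- The bounds for the part in `B`. -/
theorem part_bd {Ls : Submodule ℝ (ℕ → ℝ)} {X : Finset ℕ} {q nu : ℕ} {t : ℝ} {w : ℕ → ℝ}
    {η θ : ℝ} {K : ℕ} {bs : Finset ℕ} {T : ℕ → ℕ → ℝ} {B : Finset ℕ}
    (hW : Wts X q nu t w) (hK : X.card + 2 ≤ K) (hη : 0 ≤ η) (hθ : 0 ≤ θ)
    (hT : Tab Ls (insert q (insert nu X)) bs T)
    (h1 : ∀ i ∈ bs, i ∉ B → ∀ j ∈ insert q (insert nu X) \ bs, j ∈ B → |T i j| * w j ≤ θ * w i)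
    (h2 : ∀ i ∈ bs, i ∈ B → ∀ j ∈ insert q (insert nu X) \ bs, j ∉ B → |T i j| * w j ≤ η * w i)
    {z : ℕ → ℝ} (hz : z ∈ Ls) {M μ : ℝ} (hM : 0 ≤ M) (hμ : 0 ≤ μ)
    (hzb : ∀ j ∈ insert q (insert nu X), j ∈ B → |z j| ≤ M * w j)
    (hzb' : ∀ j ∈ insert q (insert nu X), j ∉ B → |z j| ≤ μ * w j) :
    ∃ zB ∈ Ls, (∀ j ∈ insert q (insert nu X), j ∈ B → |z j - zB j| ≤ K * η * μ * w j) ∧
      (∀ j ∈ insert q (insert nu X), j ∉ B → |zB j| ≤ K * θ * M * w j) := by
  have hwp := wpos hW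
  obtain ⟨zB, hzL, hz1, hz2, hz3⟩ := part_ex hT B hz
  refine ⟨zB, hzL, fun j hj hjB => ?_, fun j hj hjB => ?_⟩
  · by_cases hjb : j ∈ bs
    · rw [hz3 j hjb]
      refine sum_bd (w := w) (card_Ac hK bs) hη hμ (hwp j hj).le (fun i hi hiU => ?_) (fun i hi hiU => ?_)
      · exact h2 j hjb hjB i hi hiU
      · exact hzb' i (Finset.mem_sdiff.1 hi).1 hiU
    · rw [hz1 j (Finset.mem_sdiff.2 ⟨hj, hjb⟩), if_pos hjB, sub_self, abs_zero]
      exact mul_nonneg (by positivity) (hwp j hj).le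
  · by_cases hjb : j ∈ bs
    · rw [hz2 j hjb]
      refine sum_bd (w := w) (card_Ac hK bs) hθ hM (hwp j hj).le (fun i hi hiU => ?_) (fun i hi hiU => ?_)
      · exact h1 j hjb hjB i hi hiU
      · exact hzb i (Finset.mem_sdiff.1 hi).1 hiU
    · rw [hz1 j (Finset.mem_sdiff.2 ⟨hj, hjb⟩), if_neg hjB, abs_zero]
      exact mul_nonneg (by positivity) (hwp j hj).le

/-- a real inequality for the jump -/
theorem jump_real {M ε κ a τ μ r : ℝ} (hε : 0 < ε) (hε1 : ε ≤ 1) (hM : 1 ≤ M) (hκ : 0 ≤ κ)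
    (hsm : 4 * κ * M ≤ ε) (ha0 : 0 ≤ a) (ha1 : 2 * a ≤ ε * τ) (hτ0 : 0 < τ) (hμ0 : 0 ≤ μ)
    (hr3 : ε * r = τ + a ∨ ε * r = κ * μ) (hμb : μ ≤ (M + 1) * r + a) :
    μ ≤ 8 * M / ε * τ := by
  rw [div_mul_eq_mul_div, le_div_iff₀ hε]
  have hετ : ε * τ ≤ 1 * τ := by gcongr
  have hMτ : 1 * τ ≤ M * τ := by gcongr
  have haε : a * ε ≤ a * 1 := by gcongr
  have h9 : μ * ε ≤ ((M + 1) * r + a) * ε := by gcongr
  have h10 : ((M + 1) * r + a) * ε = (M + 1) * (ε * r) + a * ε := by ring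
  rcases hr3 with hr3 | hr3
  · rw [h10, hr3] at h9
    have h11 : (M + 1) * (τ + a) ≤ (2 * M) * (τ + a) := by gcongr; linarith
    have h12 : (2 * M) * (τ + a) ≤ (2 * M) * (τ + τ) := by gcongr; linarith
    linarith
  · rw [h10, hr3] at h9
    have h11 : (M + 1) * (κ * μ) ≤ (2 * M) * (κ * μ) := by gcongr; linarith
    have h12 : (2 * M) * (κ * μ) = (4 * κ * M) * (μ / 2) := by ring
    have h13 : (4 * κ * M) * (μ / 2) ≤ ε * (μ / 2) := by gcongr
    have h14 : μ * ε ≤ 2 * (a * ε) := by linarith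
    linarith

/-- the ratio for the linear form -/
theorem jump_q {M ε t a τ r xq D d y : ℝ} (hε : 0 < ε) (hε1 : ε ≤ 1) (hM : 1 ≤ M) (ht : 0 < t)
    (ha0 : 0 ≤ a) (hr0 : 0 < r) (hτr : τ + a ≤ ε * r) (hx : xq ≤ (1 - ε) * t) (hD : D = y - d)
    (h9 : -(M * t) ≤ xq + r⁻¹ * D) (h8 : -(a * t) ≤ d) (h8' : d ≤ a * t) (hy : y ≤ τ * t) :
    |y| ≤ ((M + 1) * r + a) * t := by
  have hεt : 0 < ε * t := mul_pos hε ht
  have h10 : -((M + 1) * t) ≤ r⁻¹ * D := by linarith
  have h11 : r * (-((M + 1) * t)) ≤ r * (r⁻¹ * D) := by gcongr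
  have h12 : r * (r⁻¹ * D) = D := by field_simp
  rw [h12, hD] at h11
  have h14 : ε * r ≤ 1 * r := by gcongr
  have h15 : τ * t ≤ r * t := by gcongr; linarith
  have h16 : 0 ≤ M * r * t := by positivity
  have h17 : 0 ≤ a * t := by positivity
  have e1 : ((M + 1) * r + a) * t = M * r * t + r * t + a * t := by ring
  have e2 : r * (-((M + 1) * t)) = -(M * r * t) - r * t := by ring
  rw [abs_le, e1]
  rw [e2] at h11
  constructor <;> linarith

/-- the ratio for the other coordinates -/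
theorem jump_x {M ε a r xj D d y w : ℝ} (hε : 0 < ε) (hM : 1 ≤ M) (hw : 0 < w)
    (hr0 : 0 < r) (hx : ε * w ≤ xj) (hD : D = y - d)
    (h9 : xj + r⁻¹ * D ≤ w) (h8' : d ≤ a * w) (hy : 0 ≤ y) :
    |y| ≤ ((M + 1) * r + a) * w := by
  have hεw : 0 < ε * w := mul_pos hε hw
  have h10 : r⁻¹ * D ≤ w := by linarith
  have h11 : r * (r⁻¹ * D) ≤ r * w := by gcongr
  have h12 : r * (r⁻¹ * D) = D := by field_simp
  rw [h12, hD] at h11
  have h16 : 0 ≤ M * r * w := by positivity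
  have e1 : ((M + 1) * r + a) * w = M * r * w + r * w + a * w := by ring
  rw [abs_of_nonneg hy, e1]
  linarith

theorem t_JUMP : S_JUMP := by
  intro Ls X q nu t t' w M ε η θ K bs T x B hW hK hε hε1 hM hη hθ hθη hsm ht' htt hth hB hx hT
    hBA hnuB hqB hd1 hd2
  have hxS := cen_sl hW hε hx
  have hxb := sl_bd hW hM hB hxS
  have hwp := wpos hW
  have hW' := hW
  obtain ⟨w1, w2, w3, w4, w5, w6, w7⟩ := hW
  obtain ⟨x1, x2, x3, x4⟩ := hx
  have hM0 : 0 ≤ M := by linarith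
  set Ac := insert q (insert nu X) with hAc
  have hqA : q ∈ Ac := by rw [hAc]; simp
  have hnA : nu ∈ Ac := by rw [hAc]; simp
  have hXA : ∀ c ∈ X, c ∈ Ac := fun c hc => by rw [hAc]; simp [hc]
  set a : ℝ := K * θ * M with ha
  have ha0 : 0 ≤ a := by positivity
  set τ : ℝ := t' / t with hτ
  have hτ0 : 0 < τ := by positivity
  have hτt : τ * t = t' := by rw [hτ]; field_simp
  have hτ1 : τ ≤ 1 := by rw [hτ, div_le_one w4]; exact htt
  have ha1 : 2 * a ≤ ε * τ := by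
    have h8 : (2 * a) * t ≤ (ε * τ) * t := by
      rw [mul_assoc ε, hτt, ha]
      linarith
    exact le_of_mul_le_mul_right h8 w4
  refine ⟨?_, ?_⟩
  · intro y hy
    have hyS : y ∈ Sl Ls X q nu t := ⟨hy.1, hy.2.1, hy.2.2.1, hy.2.2.2.trans htt⟩
    have hyb := sl_bd hW' hM hB hyS
    -- the maximal ratio
    have hne : (Ac \ B).Nonempty := ⟨q, Finset.mem_sdiff.2 ⟨hqA, hqB⟩⟩
    obtain ⟨j0, hj0, hj0m⟩ := Finset.exists_max_image (Ac \ B) (fun j => |y j| / w j) hne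
    set μ : ℝ := |y j0| / w j0 with hμ
    have hμ0 : 0 ≤ μ := div_nonneg (abs_nonneg _) (hwp j0 (Finset.mem_sdiff.1 hj0).1).le
    have hμm : ∀ j ∈ Ac, j ∉ B → |y j| ≤ μ * w j := by
      intro j hj hjB
      have := hj0m j (Finset.mem_sdiff.2 ⟨hj, hjB⟩)
      rwa [div_le_iff₀ (hwp j hj)] at this
    obtain ⟨d, hd, hde, hdo⟩ := part_bd hW' hK hη hθ hT hd1 hd2 hy.1 hM0 hμ0
      (fun j hj _ => hyb j hj) hμm
    -- the inverse step size
    obtain ⟨r, hr0, hr1, hr2, hr3⟩ : ∃ r : ℝ, 0 < r ∧ (τ + a) ≤ ε * r ∧ K * η * μ ≤ ε * r ∧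
        (ε * r = τ + a ∨ ε * r = K * η * μ) := by
      refine ⟨max (τ + a) (K * η * μ) / ε, ?_, ?_, ?_, ?_⟩
      · apply div_pos _ hε
        exact lt_of_lt_of_le (by linarith) (le_max_left _ _)
      · rw [mul_div_cancel₀ _ hε.ne']
        exact le_max_left _ _
      · rw [mul_div_cancel₀ _ hε.ne']
        exact le_max_right _ _
      · rw [mul_div_cancel₀ _ hε.ne']
        exact max_choice _ _
    have hri : 0 < r⁻¹ := by positivity
    have hpt : x + r⁻¹ • (y - d) ∈ Sl Ls X q nu t := by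
      refine ⟨Ls.add_mem x1 (Ls.smul_mem _ (Ls.sub_mem hy.1 hd)), fun c hc => ?_, ?_, ?_⟩
      · show 0 ≤ x c + r⁻¹ * (y c - d c)
        have hwc := w5 c hc
        have hxc := x2 c hc
        have key : -(ε * r * w c) ≤ y c - d c := by
          by_cases hcB : c ∈ B
          · have h8 := (abs_le.1 (hde c (hXA c hc) hcB)).1
            have h9 : K * η * μ * w c ≤ ε * r * w c := by gcongr
            linarith
          · have h8 := (abs_le.1 (hdo c (hXA c hc) hcB)).2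
            have h9 := hy.2.1 c hc
            have h10 : a * w c ≤ ε * r * w c := by
              apply mul_le_mul_of_nonneg_right _ hwc.le
              linarith
            linarith
        have h8 : r⁻¹ * (-(ε * r * w c)) ≤ r⁻¹ * (y c - d c) := by gcongr
        have h9 : r⁻¹ * (-(ε * r * w c)) = -(ε * w c) := by field_simp
        linarith
      · show x nu + r⁻¹ * (y nu - d nu) ≤ 1
        have h8 := (abs_le.1 (hde nu hnA hnuB)).2
        rw [w7, mul_one] at h8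
        have h9 : r⁻¹ * (y nu - d nu) ≤ r⁻¹ * (ε * r) := by gcongr; linarith
        have h10 : r⁻¹ * (ε * r) = ε := by field_simp
        linarith
      · show x q + r⁻¹ * (y q - d q) ≤ t
        have h8 := (abs_le.1 (hdo q hqA hqB)).1
        rw [w6] at h8
        have h9 := hy.2.2.2
        have h10 : y q - d q ≤ (ε * r) * t := by
          have : (τ + a) * t ≤ (ε * r) * t := by gcongr
          nlinarith
        have h11 : r⁻¹ * (y q - d q) ≤ r⁻¹ * ((ε * r) * t) := by gcongr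
        have h12 : r⁻¹ * ((ε * r) * t) = ε * t := by field_simp
        linarith
    obtain ⟨p1, p2, p3⟩ := hB _ hpt
    -- upper bound of the ratio
    have hbound : ∀ j ∈ Ac, j ∉ B → |y j| ≤ ((M + 1) * r + a) * w j := by
      intro j hj hjB
      have hj' := hj
      rw [hAc, Finset.mem_insert, Finset.mem_insert] at hj'
      have h8 := abs_le.1 (hdo j hj hjB)
      rcases hj' with rfl | rfl | hjX
      · rw [w6] at h8 ⊢
        exact jump_q hε hε1 hM w4 ha0 hr0 hr1 x4 rfl p2 h8.1 h8.2 (by rw [hτt]; exact hy.2.2.2)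
      · exact absurd hnuB hjB
      · exact jump_x hε hM (w5 j hjX) hr0 (x2 j hjX) rfl (p1 j hjX) h8.2 (hy.2.1 j hjX)
    have hμb : μ ≤ (M + 1) * r + a := by
      rw [hμ, div_le_iff₀ (hwp j0 (Finset.mem_sdiff.1 hj0).1)]
      exact hbound j0 (Finset.mem_sdiff.1 hj0).1 (Finset.mem_sdiff.1 hj0).2
    have hfin : μ ≤ 8 * M / ε * τ :=
      jump_real (κ := K * η) hε hε1 hM (by positivity) (by linarith) ha0 ha1 hτ0 hμ0 hr3 hμb
    intro j hj hjB
    calc |y j| ≤ μ * w j := hμm j hj hjB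
      _ ≤ 8 * M / ε * τ * w j := by
        apply mul_le_mul_of_nonneg_right hfin (hwp j hj).le
  · obtain ⟨xB, hxB, hxe, hxo⟩ := part_bd hW' hK hη hθ hT hd1 hd2 x1 hM0 hM0
      (fun j hj _ => hxb j hj) (fun j hj _ => hxb j hj)
    have hη4 : K * η * M ≤ ε / 4 := by linarith
    have hxnu : 0 ≤ x nu := (hB x hxS).2.2
    have hlo1 : ∀ j ∈ X, j ∈ B → ε / 4 * w j ≤ 1 / 2 * (xB j + τ * x j) := by
      intro j hj hjB
      have h8 := (abs_le.1 (hxe j (hXA j hj) hjB)).2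
      have hwj := w5 j hj
      have hxj := x2 j hj
      have h9 : K * η * M * w j ≤ ε / 4 * w j := by gcongr
      have h10 : 0 ≤ τ * x j := by
        have : 0 ≤ ε * w j := by positivity
        exact mul_nonneg hτ0.le (by linarith)
      nlinarith
    have hlo2 : ∀ j ∈ X, j ∉ B → ε / 4 * τ * w j ≤ 1 / 2 * (xB j + τ * x j) := by
      intro j hj hjB
      have h8 := (abs_le.1 (hxo j (hXA j hj) hjB)).1
      have hwj := w5 j hj
      have hxj := x2 j hj
      have h9 : τ * (ε * w j) ≤ τ * x j := by gcongr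
      have h10 : 2 * a * w j ≤ ε * τ * w j := by gcongr
      nlinarith
    refine ⟨(1 / 2 : ℝ) • (xB + τ • x), ⟨Ls.smul_mem _ (Ls.add_mem hxB (Ls.smul_mem _ x1)),
      fun c hc => ?_, ?_, ?_⟩, hlo1, hlo2⟩
    · show 0 ≤ 1 / 2 * (xB c + τ * x c)
      have hwc := w5 c hc
      by_cases hcB : c ∈ B
      · exact le_trans (by positivity) (hlo1 c hc hcB)
      · exact le_trans (by positivity) (hlo2 c hc hcB)
    · show 1 / 2 * (xB nu + τ * x nu) ≤ 1
      have h8 := (abs_le.1 (hxe nu hnA hnuB)).1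
      rw [w7, mul_one] at h8
      have h9 : τ * x nu ≤ 1 * x nu := by gcongr
      linarith
    · show 1 / 2 * (xB q + τ * x q) ≤ t'
      have h8 := (abs_le.1 (hxo q hqA hqB)).2
      rw [w6] at h8
      have h9 : τ * x q ≤ τ * ((1 - ε) * t) := by gcongr
      have h10 : 2 * a * t ≤ ε * τ * t := by gcongr
      have h11 : τ * ((1 - ε) * t) = (1 - ε) * t' := by rw [← hτt]; ring
      have h12 : ε * τ * t = ε * t' := by rw [← hτt]; ring
      nlinarith

theorem t_TERM : S_JUMP → S_TERM := by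
  intro hJ Ls X q nu t w M ε η K bs T x B hW hK hε hε1 hM hη hsm hB hx hT hBA hnuB hqB hd1 hd2
  have hwp := wpos hW
  have hd1' : ∀ i ∈ bs, i ∉ B → ∀ j ∈ insert q (insert nu X) \ bs, j ∈ B →
      |T i j| * w j ≤ 0 * w i := by
    intro i hi hiB j hj hjB
    rw [hd1 i hi hiB j hj hjB, abs_zero, zero_mul, zero_mul]
  refine ⟨?_, ?_⟩
  · intro y hy j hj hjB
    have ht : 0 < t := hW.2.2.2.1
    have h1 : ∀ t' : ℝ, 0 < t' → t' ≤ t → |y j| ≤ 8 * M / ε * (t' / t) * w j := by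
      intro t' ht' htt
      have h2 := (hJ Ls X q nu t t' w M ε η 0 K bs T x B hW hK hε hε1 hM hη le_rfl hη hsm ht' htt
        (by nlinarith) hB hx hT hBA hnuB hqB hd1' hd2).1
      exact h2 y ⟨hy.1, hy.2.1, hy.2.2.1, by linarith [hy.2.2.2]⟩ j hj hjB
    by_contra hne
    have hpos : 0 < |y j| := abs_pos.2 hne
    have hw := hwp j hj
    set c : ℝ := 8 * M / ε / t * w j with hc
    have hc0 : 0 < c := by positivity
    have h2 := h1 (min t (|y j| / (2 * c))) (lt_min ht (by positivity)) (min_le_left _ _)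
    have h3 : 8 * M / ε * (min t (|y j| / (2 * c)) / t) * w j = c * min t (|y j| / (2 * c)) := by
      rw [hc]; ring
    rw [h3] at h2
    have h4 : c * min t (|y j| / (2 * c)) ≤ c * (|y j| / (2 * c)) := by
      gcongr
      exact min_le_right _ _
    have h5 : c * (|y j| / (2 * c)) = |y j| / 2 := by field_simp
    linarith
  · have hxS := cen_sl hW hε hx
    have hxb := sl_bd hW hM hB hxS
    have hM0 : 0 ≤ M := by linarith
    obtain ⟨xB, hxB, hxe, hxo⟩ := part_bd hW hK hη le_rfl hT hd1' hd2 hx.1 hM0 hM0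
      (fun j hj _ => hxb j hj) (fun j hj _ => hxb j hj)
    obtain ⟨w1, w2, w3, w4, w5, w6, w7⟩ := hW
    obtain ⟨x1, x2, x3, x4⟩ := hx
    have hη4 : K * η * M ≤ ε / 4 := by linarith
    refine ⟨xB, hxB, fun j hj hjB => ?_, fun j hj hjB => ?_, ?_⟩
    · have h8 := (abs_le.1 (hxe j (by simp [hj]) hjB)).2
      have hwj := w5 j hj
      have hxj := x2 j hj
      have h9 : K * η * M * w j ≤ ε / 4 * w j := by gcongr
      nlinarith
    · have h8 := hxo j hj hjB
      rw [mul_zero, zero_mul, zero_mul] at h8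
      exact abs_nonpos_iff.1 h8
    · have h8 := (abs_le.1 (hxe nu (by simp) hnuB)).1
      rw [w7, mul_one] at h8
      linarith

end Pool.Agent.Y721.CS
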